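import Mathlib
import Pool.Agent.Work.MP_787500_nt.HP.UrFull
import Pool.Agent.Work.MP_787500_nt.HP.CocSub

/-!
The decomposition group at an odd prime as a topological group: definitions.
-/

set_option autoImplicit false
set_option linter.unusedSectionVars false

namespace Pool.Agent.Work.MP_787500_nt.LB

open Matrix
open Pool.Agent.Work.MP_787500_nt.GP

/-- a character and a cocycle with values in the 2-adic integers -/
structure Pr {D : Type*} [Group D] (χ a : D → ℤ_[2]) : Prop where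
  one : χ 1 = 1
  mul : ∀ g h, χ (g * h) = χ g * χ h
  odd : ∀ g, (2 : ℤ_[2]) ∣ χ g - 1
  coc : ∀ g h, a (g * h) = a g + χ g * a h

/-- The group `D` with inertia group `I`, character `χ`, Kummer cocycle `a`, Frobenius element `σ`, tame
generator `τ`. -/
structure TameX {D : Type*} [Group D] [TopologicalSpace D] (χ a : D → ℤ_[2]) (σ τ : D) (l : ℕ)
    (I : Subgroup D) : Prop extends Pr χ a where
  χc : Continuous χ
  ac : Continuous a
  lodd : Odd l
  lt : 2 < l
  σχ : χ σ = l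
  σa : a σ = 0
  τχ : χ τ = 1
  τa : a τ = 1
  dens : ∀ (g : D) (n : ℕ), ∃ i : ℕ, (2 : ℤ_[2]) ^ n ∣ χ g - (l : ℤ_[2]) ^ i
  po : ∀ g, χ g = 1 → a g = 0 → ∀ U : Subgroup D, U.Normal → IsOpen (U : Set D) → g * g ∈ U → g ∈ U
  In : I.Normal
  Iχ : ∀ g ∈ I, χ g = 1
  τI : τ ∈ I
  frob : ∀ g, ∀ U : Subgroup D, U.Normal → IsOpen (U : Set D) → ∃ i : ℕ, ∃ n ∈ I,
    (σ ^ i * n)⁻¹ * g ∈ U

variable {D : Type*} [Group D] [TopologicalSpace D] {E : Type*} [NormedField E] {n : ℕ}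

/-- the continuous cocycles whose restriction to `I` is a coboundary -/
def fD (I : Subgroup D) (A : D → Matrix (Fin n) (Fin n) E) : Submodule E (D → Fin n → E) where
  carrier := {x | Parity.IsCocycle A x ∧ ∃ v, ∀ d ∈ I, x d = A d *ᵥ v - v}
  add_mem' := by
    rintro x y ⟨h1, v, hv⟩ ⟨h2, w, hw⟩
    refine ⟨h1.add h2, v + w, fun d hd => ?_⟩
    rw [Pi.add_apply, hv d hd, hw d hd, mulVec_add]
    abel
  zero_mem' := ⟨Parity.IsCocycle.zero A, 0, fun d _ => by rw [mulVec_zero, sub_zero]; rfl⟩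
  smul_mem' := by
    rintro c x ⟨h1, v, hv⟩
    refine ⟨h1.smul c, c • v, fun d hd => ?_⟩
    rw [Pi.smul_apply, hv d hd, mulVec_smul, smul_sub]

theorem mem_fD {I : Subgroup D} {A : D → Matrix (Fin n) (Fin n) E} {x : D → Fin n → E} :
    x ∈ fD I A ↔ Parity.IsCocycle A x ∧ ∃ v, ∀ d ∈ I, x d = A d *ᵥ v - v := Iff.rfl

end Pool.Agent.Work.MP_787500_nt.LB
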