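import Mathlib
import Pool.Agent.Work.MP_787500_nt.LB.Defs

/-!
Small open normal subgroups of a decomposition group at an odd prime are tame (`TameD`).
-/

set_option autoImplicit false
set_option linter.unusedSectionVars false

namespace Pool.Agent.Work.MP_787500_nt.LB

open Pool.Agent.Work.MP_787500_nt.GP
open Pool.Agent.Work.MP_787500_nt.Gn (GoodG)

theorem unit_of_odd {x : ℤ_[2]} (h : (2 : ℤ_[2]) ∣ x - 1) : IsUnit x := by
  rw [PadicInt.isUnit_iff]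
  by_contra hne
  have hlt : ‖x‖ < 1 := lt_of_le_of_ne x.2 hne
  have h2 : (2 : ℤ_[2]) ∣ x := by
    have := PadicInt.norm_lt_one_iff_dvd x
    exact_mod_cast this.1 hlt
  have h3 : (2 : ℤ_[2]) ∣ 1 := by
    have := dvd_sub h2 h
    rwa [sub_sub_cancel] at this
  have h4 : ‖(1 : ℤ_[2])‖ < 1 := by
    have := PadicInt.norm_lt_one_iff_dvd (1 : ℤ_[2])
    exact this.2 (by exact_mod_cast h3)
  rw [norm_one] at h4
  exact lt_irrefl _ h4

theorem dvd_all {x : ℤ_[2]} (h : ∀ n : ℕ, (2 : ℤ_[2]) ^ n ∣ x) : x = 0 := by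
  refine PadicInt.ext_of_toZModPow.mp fun n => ?_
  rw [map_zero]
  obtain ⟨c, hc⟩ := h n
  rw [hc, map_mul, map_pow, map_ofNat]
  have : (2 : ZMod (2 ^ n)) ^ n = 0 := by
    have h1 : ((2 ^ n : ℕ) : ZMod (2 ^ n)) = 0 := ZMod.natCast_self _
    exact_mod_cast h1
  rw [this, zero_mul]

/-- the set of multiples of `2 ^ n` is open and closed -/
theorem dvd_clopen (n : ℕ) : IsClopen {x : ℤ_[2] | (2 : ℤ_[2]) ^ n ∣ x} := by
  have h : {x : ℤ_[2] | (2 : ℤ_[2]) ^ n ∣ x} = {x : ℤ_[2] | ‖x‖ ≤ (2 : ℝ) ^ (-(n : ℤ))} := by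
    ext x
    have := PadicInt.norm_le_pow_iff_mem_span_pow x n
    rw [Ideal.mem_span_singleton] at this
    constructor
    · intro hx
      have := this.2 (by exact_mod_cast hx)
      exact_mod_cast this
    · intro hx
      have := this.1 (by exact_mod_cast hx)
      exact_mod_cast this
  rw [h]
  have hb : {x : ℤ_[2] | ‖x‖ ≤ (2 : ℝ) ^ (-(n : ℤ))} = Metric.closedBall 0 ((2 : ℝ) ^ (-(n : ℤ))) := by
    ext x
    rw [mem_closedBall_zero_iff]
    rfl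
  rw [hb]
  exact IsUltrametricDist.isClopen_closedBall _ (by positivity)

section alg

variable {D : Type*} [Group D] {χ a : D → ℤ_[2]}

theorem Pr.a_one (h : Pr χ a) : a 1 = 0 := by
  have := h.coc 1 1
  rw [mul_one, h.one, one_mul] at this
  exact left_eq_add.1 this

theorem Pr.chi_inv (h : Pr χ a) (g : D) : χ g * χ g⁻¹ = 1 := by
  rw [← h.mul, mul_inv_cancel, h.one]

theorem Pr.a_inv (h : Pr χ a) (g : D) : χ g * a g⁻¹ = -a g := by
  have := h.coc g g⁻¹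
  rw [mul_inv_cancel, h.a_one] at this
  linear_combination -this

theorem Pr.chi_pow (h : Pr χ a) (g : D) (i : ℕ) : χ (g ^ i) = χ g ^ i := by
  induction i with
  | zero => rw [pow_zero, pow_zero, h.one]
  | succ i ih => rw [pow_succ, h.mul, ih, pow_succ]

/-- the elements with `χ ≡ 1` modulo `2 ^ B`, `a ≡ 0` modulo `2 ^ k` -/
def cong (h : Pr χ a) {B k : ℕ} (hkB : k ≤ B) : Subgroup D where
  carrier := {g | (2 : ℤ_[2]) ^ B ∣ χ g - 1 ∧ (2 : ℤ_[2]) ^ k ∣ a g}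
  mul_mem' := by
    rintro g g' ⟨h1, h2⟩ ⟨h3, h4⟩
    refine ⟨?_, ?_⟩
    · have e : χ (g * g') - 1 = χ g * (χ g' - 1) + (χ g - 1) := by
        rw [h.mul]
        ring
      rw [e]
      exact dvd_add (h3.mul_left _) h1
    · rw [h.coc]
      exact dvd_add h2 (h4.mul_left _)
  one_mem' := ⟨by rw [h.one, sub_self]; exact dvd_zero _, by rw [h.a_one]; exact dvd_zero _⟩
  inv_mem' := by
    rintro g ⟨h1, h2⟩
    have hu : IsUnit (χ g) := unit_of_odd (h.odd g)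
    refine ⟨?_, ?_⟩
    · have e : χ g * (χ g⁻¹ - 1) = -(χ g - 1) := by
        rw [mul_sub, h.chi_inv]
        ring
      have h3 : (2 : ℤ_[2]) ^ B ∣ χ g * (χ g⁻¹ - 1) := by
        rw [e]
        exact (dvd_neg).2 h1
      exact (hu.dvd_mul_left).1 h3
    · have h3 : (2 : ℤ_[2]) ^ k ∣ χ g * a g⁻¹ := by
        rw [h.a_inv]
        exact (dvd_neg).2 h2
      exact (hu.dvd_mul_left).1 h3

theorem mem_cong (h : Pr χ a) {B k : ℕ} {hkB : k ≤ B} {g : D} :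
    g ∈ cong h hkB ↔ (2 : ℤ_[2]) ^ B ∣ χ g - 1 ∧ (2 : ℤ_[2]) ^ k ∣ a g := Iff.rfl

theorem cong_normal (h : Pr χ a) {B k : ℕ} (hkB : k ≤ B) : (cong h hkB).Normal := by
  refine ⟨fun g hg x => ?_⟩
  obtain ⟨h1, h2⟩ := hg
  have hχ : χ (x * g * x⁻¹) = χ g := by
    rw [h.mul, h.mul]
    linear_combination χ g * h.chi_inv x
  refine ⟨by rw [hχ]; exact h1, ?_⟩
  have e : a (x * g * x⁻¹) = χ x * a g - (χ g - 1) * a x := by
    rw [h.coc, h.coc, h.mul]
    have := h.a_inv x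
    linear_combination χ g * this
  rw [e]
  exact dvd_sub (h2.mul_left _) (((pow_dvd_pow _ hkB).trans h1).mul_right _)

theorem pow_two_one {x : ℤ_[2]} (h : (2 : ℤ_[2]) ∣ x - 1) (n : ℕ) : (2 : ℤ_[2]) ^ n ∣ x ^ 2 ^ n - 1 := by
  induction n with
  | zero => rw [pow_zero]; exact one_dvd _
  | succ n ih =>
    have e : x ^ 2 ^ (n + 1) - 1 = (x ^ 2 ^ n - 1) * (x ^ 2 ^ n - 1 + 2) := by
      rw [pow_succ 2 n, pow_mul]
      ring
    rw [e, pow_succ]
    refine mul_dvd_mul ih (dvd_add ?_ dvd_rfl)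
    have h1 : x - 1 ∣ x ^ 2 ^ n - 1 := by
      have := sub_dvd_pow_sub_pow x 1 (2 ^ n)
      rwa [one_pow] at this
    exact h.trans h1

theorem Pr.a_pow_dvd (h : Pr χ a) {g : D} {m : ℕ} (hg : (2 : ℤ_[2]) ^ m ∣ χ g - 1) (i : ℕ) :
    (2 : ℤ_[2]) ^ m ∣ a (g ^ i) - i * a g := by
  induction i with
  | zero => simp [h.a_one]
  | succ i ih =>
    have e : a (g ^ (i + 1)) - ((i + 1 : ℕ) : ℤ_[2]) * a g =
        (a (g ^ i) - i * a g) + (χ (g ^ i) - 1) * a g := by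
      rw [pow_succ, h.coc]
      push_cast
      ring
    rw [e]
    refine dvd_add ih (Dvd.dvd.mul_right ?_ _)
    rw [h.chi_pow]
    have := sub_dvd_pow_sub_pow (χ g) 1 i
    rw [one_pow] at this
    exact hg.trans this

theorem cong_pow (h : Pr χ a) {B k : ℕ} (hkB : k ≤ B) (g : D) : ∃ j : ℕ, g ^ 2 ^ j ∈ cong h hkB := by
  refine ⟨B + k, ?_⟩
  rw [pow_add, pow_mul]
  set g₁ := g ^ 2 ^ B with hg₁
  have h1 : (2 : ℤ_[2]) ^ B ∣ χ g₁ - 1 := by
    rw [hg₁, h.chi_pow]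
    exact pow_two_one (h.odd g) B
  refine ⟨?_, ?_⟩
  · rw [h.chi_pow]
    have := sub_dvd_pow_sub_pow (χ g₁) 1 (2 ^ k)
    rw [one_pow] at this
    exact h1.trans this
  · have h2 := (pow_dvd_pow (2 : ℤ_[2]) hkB).trans (h.a_pow_dvd h1 (2 ^ k))
    have h3 : (2 : ℤ_[2]) ^ k ∣ ((2 ^ k : ℕ) : ℤ_[2]) * a g₁ := by
      push_cast
      exact dvd_mul_right _ _
    have := dvd_add h2 h3
    rwa [sub_add_cancel] at this

end alg

section top

variable {D : Type*} [Group D] [TopologicalSpace D] [IsTopologicalGroup D] {χ a : D → ℤ_[2]}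

theorem cong_open (h : Pr χ a) (hχ : Continuous χ) (ha : Continuous a) {B k : ℕ} (hkB : k ≤ B) :
    IsOpen (cong h hkB : Set D) := by
  have e : (cong h hkB : Set D) = (fun g => χ g - 1) ⁻¹' {x | (2 : ℤ_[2]) ^ B ∣ x} ∩
      a ⁻¹' {x | (2 : ℤ_[2]) ^ k ∣ x} := rfl
  rw [e]
  exact ((dvd_clopen B).isOpen.preimage (hχ.sub continuous_const)).inter
    ((dvd_clopen k).isOpen.preimage ha)

end top

end Pool.Agent.Work.MP_787500_nt.LB
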