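import Mathlib
import Pool.Agent.Work.MP_787500_nt.LB.Tame

/-!
Small open normal subgroups of a decomposition group at an odd prime are tame (`TameD`), continued.
-/

set_option autoImplicit false
set_option linter.unusedSectionVars false

namespace Pool.Agent.Work.MP_787500_nt.LB

open Pool.Agent.Work.MP_787500_nt.GP
open Pool.Agent.Work.MP_787500_nt.Gn (GoodG)

theorem dvd_iff_zmod (l i B : ℕ) :
    (2 : ℤ_[2]) ^ B ∣ (l : ℤ_[2]) ^ i - 1 ↔ (l : ZMod (2 ^ B)) ^ i = 1 := by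
  have h1 : (2 : ℤ_[2]) ^ B ∣ (l : ℤ_[2]) ^ i - 1 ↔
      (l : ℤ_[2]) ^ i - 1 ∈ RingHom.ker (PadicInt.toZModPow (p := 2) B) := by
    rw [PadicInt.ker_toZModPow, Ideal.mem_span_singleton]
    norm_cast
  rw [h1, RingHom.mem_ker, map_sub, map_pow, map_natCast, map_one, sub_eq_zero]

/-- the order of `l` modulo a large power of 2 is a large power of 2 -/
theorem exists_ord {l : ℕ} (hodd : Odd l) (hlt : 2 < l) (k : ℕ) : ∃ B e : ℕ, k ≤ B ∧ k ≤ e ∧
    (2 : ℤ_[2]) ^ B ∣ (l : ℤ_[2]) ^ 2 ^ e - 1 ∧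
    ∀ i : ℕ, (2 : ℤ_[2]) ^ B ∣ (l : ℤ_[2]) ^ i - 1 → 2 ^ e ∣ i := by
  set B := l ^ 2 ^ k with hB
  have hB2 : l ^ 2 ^ k < 2 ^ B := Nat.lt_two_pow_self
  have hkB : k ≤ B := by
    have h1 : k < 2 ^ k := Nat.lt_two_pow_self
    have h2 : 2 ^ k < l ^ 2 ^ k := Nat.lt_pow_self (by omega)
    omega
  have hB0 : B ≠ 0 := by
    rw [hB]
    positivity
  have hcop : Nat.Coprime l (2 ^ B) := by
    refine Nat.Coprime.pow_right _ ?_
    exact (Nat.coprime_two_right).2 hodd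
  have h4 : (l : ZMod (2 ^ B)) ^ 2 ^ (B - 1) = 1 := by
    have h5 := ZMod.pow_totient (ZMod.unitOfCoprime l hcop)
    rw [Nat.totient_prime_pow Nat.prime_two (Nat.pos_of_ne_zero hB0)] at h5
    have h6 := congrArg Units.val h5
    simpa using h6
  obtain ⟨e, -, he⟩ := (Nat.dvd_prime_pow Nat.prime_two).1 (orderOf_dvd_of_pow_eq_one h4)
  refine ⟨B, e, hkB, ?_, ?_, fun i hi => ?_⟩
  · by_contra hek
    push Not at hek
    have h5 : (l : ZMod (2 ^ B)) ^ 2 ^ k = 1 := by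
      rw [← orderOf_dvd_iff_pow_eq_one, he]
      exact pow_dvd_pow _ hek.le
    have h6 : ((l ^ 2 ^ k : ℕ) : ZMod (2 ^ B)) = ((1 : ℕ) : ZMod (2 ^ B)) := by
      push_cast
      exact h5
    rw [ZMod.natCast_eq_natCast_iff'] at h6
    have h7 : 1 < l ^ 2 ^ k := Nat.one_lt_pow (by positivity) (by omega)
    rw [Nat.mod_eq_of_lt hB2, Nat.mod_eq_of_lt (by omega)] at h6
    omega
  · rw [dvd_iff_zmod, ← he]
    exact pow_orderOf_eq_one _
  · rw [dvd_iff_zmod, ← orderOf_dvd_iff_pow_eq_one, he] at hi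
    exact hi

theorem pow_congr {q : ℤ_[2]} (hq : (2 : ℤ_[2]) ∣ q - 1) {n u v : ℕ} (h : u ≡ v [MOD 2 ^ n]) :
    (2 : ℤ_[2]) ^ n ∣ q ^ u - q ^ v := by
  wlog huv : v ≤ u generalizing u v
  · have := this h.symm (by omega)
    rw [← dvd_neg, neg_sub] at this
    exact this
  obtain ⟨w, hw⟩ := (Nat.modEq_iff_dvd' huv).1 h.symm
  have e : q ^ u - q ^ v = q ^ v * ((q ^ 2 ^ n) ^ w - 1 ^ w) := by
    have : u = v + 2 ^ n * w := by omega
    rw [this, pow_add, pow_mul, one_pow]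
    ring
  rw [e]
  exact Dvd.dvd.mul_left ((pow_two_one hq n).trans (sub_dvd_pow_sub_pow _ _ _)) _

theorem dens_of {l : ℕ} (hodd : Odd l) {B e m₀ : ℕ} (hm₀ : Odd m₀)
    (hord : ∀ i : ℕ, (2 : ℤ_[2]) ^ B ∣ (l : ℤ_[2]) ^ i - 1 → 2 ^ e ∣ i) {x : ℤ_[2]}
    (hx : ∀ n, ∃ i : ℕ, (2 : ℤ_[2]) ^ n ∣ x - (l : ℤ_[2]) ^ i) (hx1 : (2 : ℤ_[2]) ^ B ∣ x - 1)
    (n : ℕ) : ∃ j : ℕ, (2 : ℤ_[2]) ^ n ∣ x - ((l ^ (2 ^ e * m₀) : ℕ) : ℤ_[2]) ^ j := by
  obtain ⟨i, hi⟩ := hx (max n B)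
  have h1 : (2 : ℤ_[2]) ^ B ∣ (l : ℤ_[2]) ^ i - 1 := by
    have h2 := (pow_dvd_pow (2 : ℤ_[2]) (le_max_right n B)).trans hi
    have h3 := dvd_sub hx1 h2
    rwa [sub_sub_sub_cancel_left] at h3
  obtain ⟨t, rfl⟩ := hord i h1
  have hcop : Nat.Coprime m₀ (2 ^ n) := Nat.Coprime.pow_right _ ((Nat.coprime_two_right).2 hm₀)
  obtain ⟨j, hj⟩ : ∃ j, m₀ * j ≡ t [MOD 2 ^ n] := by
    refine ⟨t * m₀ ^ (Nat.totient (2 ^ n) - 1), ?_⟩
    have h4 : m₀ * (t * m₀ ^ (Nat.totient (2 ^ n) - 1)) = t * m₀ ^ Nat.totient (2 ^ n) := by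
      have h5 : Nat.totient (2 ^ n) ≠ 0 := by
        have := Nat.totient_pos.2 (show 0 < 2 ^ n by positivity)
        omega
      obtain ⟨s, hs⟩ := Nat.exists_eq_succ_of_ne_zero h5
      rw [hs, Nat.succ_sub_one, pow_succ]
      ring
    rw [h4]
    have h6 := (Nat.ModEq.pow_totient hcop).mul_left t
    rwa [mul_one] at h6
  have hl1 : (2 : ℤ_[2]) ∣ (l : ℤ_[2]) - 1 := by
    obtain ⟨r, hr⟩ := hodd
    refine ⟨r, ?_⟩
    rw [hr]
    push_cast
    ring
  have hq : (2 : ℤ_[2]) ∣ (l : ℤ_[2]) ^ 2 ^ e - 1 := by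
    have := sub_dvd_pow_sub_pow (l : ℤ_[2]) 1 (2 ^ e)
    rw [one_pow] at this
    exact hl1.trans this
  refine ⟨j, ?_⟩
  have h7 := pow_congr hq hj.symm
  have h8 := (pow_dvd_pow (2 : ℤ_[2]) (le_max_left n B)).trans hi
  have e9 : x - ((l ^ (2 ^ e * m₀) : ℕ) : ℤ_[2]) ^ j =
      (x - (l : ℤ_[2]) ^ (2 ^ e * t)) +
        (((l : ℤ_[2]) ^ 2 ^ e) ^ t - ((l : ℤ_[2]) ^ 2 ^ e) ^ (m₀ * j)) := by
    push_cast
    rw [← pow_mul, ← pow_mul, ← pow_mul]
    ring
  rw [e9]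
  exact dvd_add h8 h7

section top

variable {D : Type*} [Group D] [TopologicalSpace D] [IsTopologicalGroup D] [CompactSpace D]
  {χ a : D → ℤ_[2]} {σ τ : D} {l : ℕ} {I : Subgroup D}

theorem TameX.po_pow (h : TameX χ a σ τ l I) {g : D} (hχ : χ g = 1) (ha : a g = 0) {U : Subgroup D}
    (hU : U.Normal) (hUo : IsOpen (U : Set D)) (k : ℕ) (hk : g ^ 2 ^ k ∈ U) : g ∈ U := by
  induction k with
  | zero => simpa using hk
  | succ k ih =>
    apply ih
    refine h.po _ ?_ ?_ U hU hUo ?_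
    · rw [h.toPr.chi_pow, hχ, one_pow]
    · have h1 := dvd_all fun n => h.toPr.a_pow_dvd (m := n) (g := g) (by
        rw [hχ, sub_self]
        exact dvd_zero _) (2 ^ k)
      rw [sub_eq_zero] at h1
      rw [h1, ha, mul_zero]
    · rw [← pow_add, ← two_mul, ← pow_succ']
      exact hk

/-- an element with `χ = 1`, `a = 0` has odd order modulo every open normal subgroup -/
theorem TameX.odd_pow (h : TameX χ a σ τ l I) {g : D} (hχ : χ g = 1) (ha : a g = 0) {U : Subgroup D}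
    (hU : U.Normal) (hUo : IsOpen (U : Set D)) : ∃ c : ℕ, Odd c ∧ g ^ c ∈ U := by
  have hf : Finite (D ⧸ U) := Subgroup.quotient_finite_of_isOpen U hUo
  have hi : U.index ≠ 0 := Subgroup.index_ne_zero_of_finite
  obtain ⟨s, c, hc, hs⟩ := Nat.exists_eq_two_pow_mul_odd hi
  refine ⟨c, hc, ?_⟩
  refine h.po_pow (g := g ^ c) ?_ ?_ hU hUo s ?_
  · rw [h.toPr.chi_pow, hχ, one_pow]
  · have h1 := dvd_all fun n => h.toPr.a_pow_dvd (m := n) (g := g) (by
      rw [hχ, sub_self]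
      exact dvd_zero _) c
    rw [sub_eq_zero] at h1
    rw [h1, ha, mul_zero]
  · rw [← pow_mul, mul_comm, ← hs]
    exact Subgroup.pow_index_mem U g

/-- the normal core of an open subgroup is open -/
theorem core_open {U : Subgroup D} (hU : IsOpen (U : Set D)) : IsOpen (U.normalCore : Set D) := by
  have hfi : U.FiniteIndex := by
    have : Finite (D ⧸ U) := Subgroup.quotient_finite_of_isOpen U hU
    exact Subgroup.finiteIndex_of_finite_quotient
  have h3 : IsClosed (U.normalCore : Set D) := by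
    have h4 : (U.normalCore : Set D) = ⋂ g : D, {x | g * x * g⁻¹ ∈ U} := by
      ext x
      simp only [SetLike.mem_coe, Set.mem_iInter, Set.mem_ofPred_eq]
      exact Iff.rfl
    rw [h4]
    refine isClosed_iInter fun g => ?_
    exact (Subgroup.isClosed_of_isOpen U hU).preimage (by fun_prop)
  have h4 : U.normalCore.FiniteIndex := inferInstance
  exact Subgroup.isOpen_of_isClosed_of_finiteIndex _ h3

/-- members of the 2-power system of an open subgroup `N` contain the elements with `χ = 1`, `a = 0` -/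
theorem TameX.sep0 (h : TameX χ a σ τ l I) {N : Subgroup D} (hN : IsOpen (N : Set D)) {W : Subgroup N}
    (hW : (subSys N).mem W) {g : N} (hχ : χ g = 1) (ha : a g = 0) : g ∈ W := by
  obtain ⟨⟨U, hU, hUW⟩, hWn, k, hk⟩ := hW
  have hUN : IsOpen ((U ⊓ N : Subgroup D) : Set D) := hU.inter hN
  obtain ⟨c, hc, hgc⟩ := h.odd_pow hχ ha (U := (U ⊓ N).normalCore) inferInstance (core_open hUN)
  have h1 : g ^ c ∈ W := by
    refine hUW ?_
    rw [Subgroup.mem_subgroupOf]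
    exact (Subgroup.normalCore_le _ hgc).1
  have h2 : g ^ 2 ^ k ∈ W := by
    rw [← hk]
    exact Subgroup.pow_index_mem W g
  have hcop : Nat.Coprime c (2 ^ k) := Nat.Coprime.pow_right _ ((Nat.coprime_two_right).2 hc)
  have h3 : (g : N) ^ (Nat.gcd c (2 ^ k)) ∈ W := by
    have h4 : ((g : N) ^ (Nat.gcd c (2 ^ k) : ℤ)) ∈ W := by
      rw [Nat.gcd_eq_gcd_ab, zpow_add, zpow_mul, zpow_mul]
      exact W.mul_mem (W.zpow_mem (by simpa using h1) _) (W.zpow_mem (by
        have := h2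
        rw [← zpow_natCast] at this
        exact this) _)
    exact_mod_cast h4
  rwa [hcop.gcd_eq_one, pow_one] at h3

/-- separation -/
theorem TameX.sep (h : TameX χ a σ τ l I) {N : Subgroup D} (hN : IsOpen (N : Set D)) {W : Subgroup N}
    (hW : (subSys N).mem W) : ∃ n : ℕ, ∀ g : N, (2 : ℤ_[2]) ^ n ∣ χ g - 1 → (2 : ℤ_[2]) ^ n ∣ a g →
      g ∈ W := by
  have hNc : IsClosed (N : Set D) := Subgroup.isClosed_of_isOpen N hN
  have hcN : CompactSpace N := isCompact_iff_compactSpace.1 hNc.isCompact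
  have hWo : IsOpen (W : Set N) := by
    obtain ⟨⟨U, hU, hUW⟩, -, -⟩ := hW
    exact Subgroup.isOpen_mono hUW (hU.preimage continuous_subtype_val)
  let C : ℕ → Set N := fun n =>
    {g | (2 : ℤ_[2]) ^ n ∣ χ g - 1} ∩ {g | (2 : ℤ_[2]) ^ n ∣ a g} ∩ (W : Set N)ᶜ
  have hCc : ∀ n, IsClosed (C n) := by
    intro n
    refine (IsClosed.inter ?_ ?_).inter hWo.isClosed_compl
    · exact (dvd_clopen n).isClosed.preimage
        (((h.χc.comp continuous_subtype_val)).sub continuous_const)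
    · exact (dvd_clopen n).isClosed.preimage (h.ac.comp continuous_subtype_val)
  by_contra hne
  push Not at hne
  have hnon : ∀ n, (C n).Nonempty := by
    intro n
    obtain ⟨g, h1, h2, h3⟩ := hne n
    exact ⟨g, ⟨h1, h2⟩, h3⟩
  obtain ⟨g, hg⟩ := IsCompact.nonempty_iInter_of_sequence_nonempty_isCompact_isClosed C
    (fun n g hg => ⟨⟨(pow_dvd_pow _ (Nat.le_succ n)).trans hg.1.1,
      (pow_dvd_pow _ (Nat.le_succ n)).trans hg.1.2⟩, hg.2⟩) hnon (hCc 0).isCompact hCc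
  rw [Set.mem_iInter] at hg
  have h1 : χ g = 1 := by
    have := dvd_all fun n => (hg n).1.1
    exact sub_eq_zero.1 this
  have h2 : a g = 0 := dvd_all fun n => (hg n).1.2
  exact (hg 0).2 (h.sep0 hN hW h1 h2)

/-- every open normal subgroup `M` contains an open normal subgroup `N` which is tame -/
theorem TameX.exists_N (h : TameX χ a σ τ l I) {M : Subgroup D} (hM : M.Normal)
    (hMo : IsOpen (M : Set D)) :
    ∃ (N : Subgroup D) (a' : N → ℤ_[2]) (c : ℤ_[2]) (σ' τ' : N) (q : ℕ), N ≤ M ∧ N.Normal ∧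
      IsOpen (N : Set D) ∧ c ≠ 0 ∧ (∀ g : N, c * a' g = a g) ∧ (∃ j : ℕ, (τ' : D) = τ ^ j) ∧ 
      (∃ j : ℕ, 0 < j ∧ (σ' : D) = σ ^ j) ∧
      TameD (subSys N) (fun g : N => χ g) a' σ' τ' q := by
  have hP := h.toPr
  have hMf : Finite (D ⧸ M) := Subgroup.quotient_finite_of_isOpen M hMo
  have hi : M.index ≠ 0 := Subgroup.index_ne_zero_of_finite
  obtain ⟨k, m₀, hm₀, hm⟩ := Nat.exists_eq_two_pow_mul_odd hi
  obtain ⟨B, e, hkB, hke, hBe, hord⟩ := exists_ord h.lodd h.lt k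
  have hcn := cong_normal hP hkB
  set N : Subgroup D := M ⊓ cong hP hkB with hN
  have hNn : N.Normal := inferInstance
  have hNo : IsOpen (N : Set D) := hMo.inter (cong_open hP h.χc h.ac hkB)
  -- the unit `m₀`
  have hm₀u : IsUnit (m₀ : ℤ_[2]) := unit_of_odd (by
    obtain ⟨r, hr⟩ := hm₀
    refine ⟨r, ?_⟩
    rw [hr]
    push_cast
    ring)
  set c : ℤ_[2] := (M.index : ℤ_[2]) with hc
  have hc0 : c ≠ 0 := by
    rw [hc]
    exact_mod_cast hi
  have hcm : c = 2 ^ k * m₀ := by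
    rw [hc, hm]
    push_cast
    ring
  have hdiv : ∀ g : N, ∃ y : ℤ_[2], c * y = a g := by
    intro g
    obtain ⟨y, hy⟩ := g.2.2.2
    obtain ⟨u, hu⟩ := hm₀u
    refine ⟨(↑u⁻¹ : ℤ_[2]) * y, ?_⟩
    rw [hy, hcm, ← hu]
    have := Units.mul_inv u
    linear_combination (2 ^ k * y) * this
  choose a' ha' using hdiv
  have ha'coc : ∀ g g' : N, a' (g * g') = a' g + χ g * a' g' := by
    intro g g'
    apply mul_left_cancel₀ hc0
    rw [ha', mul_add, ha']
    have := hP.coc (g : D) (g' : D)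
    have h2 := ha' g'
    show a ((g : D) * g') = _
    rw [this]
    linear_combination (-(χ (g : D))) * h2
  -- the elements
  have hτM : τ ^ M.index ∈ N := by
    refine ⟨Subgroup.pow_index_mem M τ, ?_, ?_⟩
    · rw [hP.chi_pow, h.τχ, one_pow, sub_self]
      exact dvd_zero _
    · have h1 := dvd_all fun n => hP.a_pow_dvd (m := n) (g := τ) (by
        rw [h.τχ, sub_self]
        exact dvd_zero _) M.index
      rw [sub_eq_zero] at h1
      rw [h1, h.τa, mul_one, hm]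
      push_cast
      exact dvd_mul_right _ _
  have haσ : ∀ i : ℕ, a (σ ^ i) = 0 := by
    intro i
    induction i with
    | zero => rw [pow_zero, hP.a_one]
    | succ i ih => rw [pow_succ, hP.coc, ih, h.σa, mul_zero, add_zero]
  have hσM : σ ^ (2 ^ e * m₀) ∈ N := by
    refine ⟨?_, ?_, ?_⟩
    · have e1 : 2 ^ e * m₀ = M.index * 2 ^ (e - k) := by
        rw [hm]
        have : 2 ^ e = 2 ^ k * 2 ^ (e - k) := by
          rw [← pow_add]
          congr 1
          omega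
        rw [this]
        ring
      rw [e1, pow_mul]
      exact Subgroup.pow_mem _ (Subgroup.pow_index_mem M σ) _
    · rw [hP.chi_pow, h.σχ, pow_mul]
      have := sub_dvd_pow_sub_pow ((l : ℤ_[2]) ^ 2 ^ e) 1 m₀
      rw [one_pow] at this
      exact hBe.trans this
    · rw [haσ]
      exact dvd_zero _
  have hcoc0 : ∀ {n : ℕ} (g w : N), (2 : ℤ_[2]) ^ n ∣ a' w → (2 : ℤ_[2]) ^ n ∣ a' (g * w) - a' g := by
    intro n g w hw
    rw [ha'coc, add_sub_cancel_left]
    exact hw.mul_left _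
  -- continuity of `a'`
  have hNc : CompactSpace N :=
    isCompact_iff_compactSpace.1 (Subgroup.isClosed_of_isOpen N hNo).isCompact
  have hP' : Pr (fun g : N => χ g) a' := ⟨hP.one, fun g g' => hP.mul _ _, fun g => hP.odd _, ha'coc⟩
  have hχc' : Continuous (fun g : N => χ g) := h.χc.comp continuous_subtype_val
  have hdvd' : ∀ n : ℕ, ∃ n' : ℕ, ∀ g : N, (2 : ℤ_[2]) ^ n' ∣ a g → (2 : ℤ_[2]) ^ n ∣ a' g := by
    intro n
    refine ⟨k + n, fun g hg => ?_⟩
    rw [← ha', hcm, pow_add, mul_assoc] at hg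
    have h1 := (mul_dvd_mul_iff_left (show (2 : ℤ_[2]) ^ k ≠ 0 from pow_ne_zero _ (by norm_num))).1 hg
    exact (hm₀u.dvd_mul_left).1 h1
  have hac' : Continuous a' := by
    -- `a'` is `c⁻¹ a` in `ℚ_2`
    have h1 : Continuous (fun g : N => ((a' g : ℤ_[2]) : ℚ_[2])) := by
      have h2 : (fun g : N => ((a' g : ℤ_[2]) : ℚ_[2])) = fun g : N => (c : ℚ_[2])⁻¹ * ((a g : ℤ_[2]) : ℚ_[2]) := by
        funext g
        have hc0' : (c : ℚ_[2]) ≠ 0 := fun h0 => hc0 (Subtype.ext h0)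
        rw [eq_inv_mul_iff_mul_eq₀ hc0', ← ha' g]
        push_cast
        ring
      rw [h2]
      exact continuous_const.mul (continuous_subtype_val.comp (h.ac.comp continuous_subtype_val))
    exact Continuous.subtype_mk h1 _
  have hgood : ∀ n : ℕ, (subSys N).mem (cong hP' (le_refl n)) := by
    intro n
    refine ⟨?_, cong_normal hP' _, ?_⟩
    · have h1 : IsOpen (cong hP' (le_refl n) : Set N) := cong_open hP' hχc' hac' _
      refine ⟨(cong hP' (le_refl n)).map N.subtype, ?_, fun x hx => ?_⟩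
      · have : ((cong hP' (le_refl n)).map N.subtype : Set D) =
            Subtype.val '' (cong hP' (le_refl n) : Set N) := rfl
        rw [this]
        exact hNo.isOpenMap_subtype_val _ h1
      · rw [Subgroup.mem_subgroupOf] at hx
        obtain ⟨y, hy, hyx⟩ := hx
        have : y = x := Subtype.ext hyx
        exact this ▸ hy
    · have h1 : IsOpen (cong hP' (le_refl n) : Set N) := cong_open hP' hχc' hac' _
      exact goodG_index (I := ∅) ⟨cong_normal hP' _, h1, le_top, fun g _ => cong_pow hP' _ g,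
        fun σ hσ => hσ.elim⟩
  refine ⟨N, a', c, ⟨_, hσM⟩, ⟨_, hτM⟩, l ^ (2 ^ e * m₀), inf_le_left, hNn, hNo, hc0, ha',
    ⟨_, rfl⟩, ⟨_, ?_, rfl⟩, ?_⟩
  · obtain ⟨r, hr⟩ := hm₀
    have : 0 < 2 ^ e := by positivity
    rw [hr]
    positivity
  refine
    { char := ⟨hP.one, fun g g' => hP.mul _ _, fun n => ⟨_, hgood n, fun g w hw => ?_⟩,
        fun g => hP.odd _⟩
      c1 := fun n => ⟨_, hgood n, fun g w hw => hcoc0 g w hw.2⟩
      coc := ha'coc
      odd := h.lodd.pow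
      lt := ?_
      σχ := ?_
      σa := ?_
      τχ := ?_
      τa := ?_
      dens := fun g n => dens_of h.lodd hm₀ hord (h.dens g) g.2.2.1 n
      sep := fun W hW => ?_ }
  · show (2 : ℤ_[2]) ^ n ∣ χ ((g : D) * w) - χ g
    rw [hP.mul]
    have e1 : χ (g : D) * χ (w : D) - χ g = χ g * (χ (w : D) - 1) := by ring
    rw [e1]
    exact hw.1.mul_left _
  · have h1 : 2 ^ e * m₀ ≠ 0 := by
      obtain ⟨r, hr⟩ := hm₀
      have : 0 < 2 ^ e := by positivity
      rw [hr]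
      positivity
    exact h.lt.trans_le (Nat.le_self_pow h1 l)
  · show χ (σ ^ (2 ^ e * m₀)) = _
    rw [hP.chi_pow, h.σχ]
    push_cast
    rfl
  · apply mul_left_cancel₀ hc0
    rw [ha', mul_zero]
    exact haσ _
  · show χ (τ ^ M.index) = 1
    rw [hP.chi_pow, h.τχ, one_pow]
  · apply mul_left_cancel₀ hc0
    rw [ha', mul_one]
    show a (τ ^ M.index) = _
    have h1 := dvd_all fun n => hP.a_pow_dvd (m := n) (g := τ) (by
      rw [h.τχ, sub_self]
      exact dvd_zero _) M.index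
    rw [sub_eq_zero] at h1
    rw [h1, h.τa, mul_one]
  · obtain ⟨n, hn⟩ := h.sep hNo hW
    refine ⟨n, fun g h1 h2 => hn g h1 ?_⟩
    rw [← ha']
    exact h2.mul_left _

end top

end Pool.Agent.Work.MP_787500_nt.LB
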