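import Mathlib
import Pool.Agent.Work.MP_787500_nt.LB.Defs
import Pool.Agent.Work.MP_787500_nt.LB.ArithA
import Pool.Agent.Work.MP_787500_nt.HP.UrArith

/-!
The decomposition group at a prime number `l` that splits in the quadratic field `K`: the arithmetic instance of
`TameX`.

* `res_pow`: an element `g` of the decomposition group acts on finitely many elements of the residue field as a power
  of the Frobenius automorphism.
* `frob_dense`: the decomposition group modulo inertia is topologically generated by a Frobenius element.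
* `po_of_kum`: elements on which the cyclotomic character and the Kummer cocycle of `l` are trivial have odd order
  modulo every open subgroup.
-/

set_option autoImplicit false
set_option linter.unusedSectionVars false

namespace Pool.Agent.Work.MP_787500_nt.LB

open IsDedekindDomain NumberField
open Pool.Agent.Work.MP_787500_nt.PA (TwoSys Sm1 Sm2 homs Coc Cob IsChar goodSys core cyc Opn SU)
open Pool.Agent.Work.MP_787500_nt.Gn (GoodG)
open Pool.Agent.Work.MP_787500_nt.GP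
open Pool.Agent.Work.MP_787500_nt.HP (IsQ Spl basis_K)

universe u

open scoped Pointwise

section topology

/-- continuity from congruences on cosets of open subgroups -/
theorem cont_of_c1 {G : Type*} [Group G] [TopologicalSpace G] [IsTopologicalGroup G] {z : G → ℤ_[2]}
    (h : ∀ n : ℕ, ∃ W : Subgroup G, IsOpen (W : Set G) ∧
      ∀ g, ∀ w ∈ W, (2 : ℤ_[2]) ^ n ∣ z (g * w) - z g) : Continuous z := by
  rw [continuous_iff_continuousAt]
  intro g
  rw [ContinuousAt, Metric.tendsto_nhds]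
  intro ε hε
  obtain ⟨n, hn⟩ := PadicInt.exists_pow_neg_lt 2 hε
  obtain ⟨W, hW, h1⟩ := h n
  have h2 : (fun x : G => g * x) '' (W : Set G) ∈ nhds g :=
    (isOpenMap_mul_left g _ hW).mem_nhds ⟨1, W.one_mem, mul_one g⟩
  filter_upwards [h2]
  rintro _ ⟨w, hw, rfl⟩
  rw [dist_eq_norm]
  refine lt_of_le_of_lt ?_ hn
  rw [PadicInt.norm_le_pow_iff_mem_span_pow, Ideal.mem_span_singleton]
  exact_mod_cast h1 g w hw

end topology

variable {K : Type u} [Field K] [NumberField K]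

theorem cyc_cont : Continuous (cyc (K := K)) := by
  refine cont_of_c1 fun n => ?_
  obtain ⟨W, hW, h1⟩ := (PA.isChar_cyc (K := K)).cont n
  exact ⟨W, hW.isOpen, h1⟩

theorem kum_cont {r : ℕ → AlgebraicClosure K} {a : AbsGal K → ℤ_[2]} (hr : IsKum r a) {T : Finset ℕ}
    (hT : UT T (r 0)) : Continuous a := by
  refine cont_of_c1 fun n => ?_
  obtain ⟨W, hW, h1⟩ := hr.c1 hT n
  exact ⟨W, hW.isOpen, h1⟩

/-! ### the residue field -/

/-- elements outside `P` have finite order modulo `P` -/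
private theorem ab_fin {P : Ideal (𝓞 (AlgebraicClosure K))} (hP : P.IsPrime) {l : ℕ}
    (hl : l.Prime) (hlP : (l : 𝓞 (AlgebraicClosure K)) ∈ P) {x : 𝓞 (AlgebraicClosure K)}
    (hx : x ∉ P) : ∃ n : ℕ, 0 < n ∧ x ^ n - 1 ∈ P := by
  let k := 𝓞 (AlgebraicClosure K) ⧸ P
  let π : 𝓞 (AlgebraicClosure K) →+* k := Ideal.Quotient.mk P
  have hint : IsIntegral ℤ (π x) := (Algebra.IsIntegral.isIntegral (R := ℤ) x).map π.toIntAlgHom
  let A := Algebra.adjoin ℤ {π x}
  have hfin : Module.Finite ℤ A := Algebra.finite_adjoin_simple_of_isIntegral hint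
  have htor : Module.IsTorsion ℤ A := by
    intro a
    refine ⟨⟨(l : ℤ), by
      rw [mem_nonZeroDivisors_iff_ne_zero]
      exact_mod_cast hl.ne_zero⟩, ?_⟩
    apply Subtype.ext
    show (l : ℤ) • (a : k) = 0
    rw [zsmul_eq_mul]
    have : (((l : ℤ) : k)) = 0 := by
      rw [Int.cast_natCast, ← map_natCast π]
      exact Ideal.Quotient.eq_zero_iff_mem.2 hlP
    rw [this, zero_mul]
  have hA : Finite A := Module.finite_of_fg_torsion A htor
  have hdom : IsDomain k := Ideal.Quotient.isDomain P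
  let ξ : A := ⟨π x, Algebra.self_mem_adjoin_singleton ℤ _⟩
  obtain ⟨i, j, hij, he⟩ := Finite.exists_ne_map_eq_of_infinite (fun n : ℕ => ξ ^ n)
  have he' : (π x) ^ i = (π x) ^ j := congrArg (fun a : A => (a : k)) he
  have hx0 : π x ≠ 0 := fun h => hx (Ideal.Quotient.eq_zero_iff_mem.1 h)
  have key : ∀ i j : ℕ, i < j → (π x) ^ i = (π x) ^ j → ∃ n : ℕ, 0 < n ∧ x ^ n - 1 ∈ P := by
    intro i j hij he
    refine ⟨j - i, Nat.sub_pos_of_lt hij, ?_⟩
    have h1 : (π x) ^ j = (π x) ^ i * (π x) ^ (j - i) := by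
      rw [← pow_add, Nat.add_sub_cancel' hij.le]
    rw [h1] at he
    have h2 : (π x) ^ (j - i) = 1 := (left_eq_mul₀ (pow_ne_zero _ hx0)).1 he
    apply Ideal.Quotient.eq_zero_iff_mem.1
    show π (x ^ (j - i) - 1) = 0
    rw [map_sub, map_pow, h2, map_one, sub_self]
  rcases lt_or_gt_of_ne hij with h | h
  · exact key i j h he'
  · exact key j i h he'.symm

/-- in a field of characteristic `l`, an endomorphism acts on finitely many roots of unity as a power of the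
Frobenius endomorphism -/
private theorem ab_endo {k : Type*} [Field k] {l : ℕ} [Fact l.Prime] [CharP k l] (φ : k →+* k)
    {N : ℕ} (hN : 0 < N) : ∃ j : ℕ, ∀ x : k, x ^ N = 1 → φ x = x ^ l ^ j := by
  have hNe : NeZero N := ⟨hN.ne'⟩
  obtain ⟨z, hz⟩ := IsCyclic.exists_generator (α := rootsOfUnity N k)
  -- the order of `z` is prime to `l`
  have hz0 : ((z : kˣ) : k) ≠ 0 := Units.ne_zero _
  have hzN : ((z : kˣ) : k) ^ N = 1 := by
    have h1 : (z : kˣ) ^ N = 1 := (mem_rootsOfUnity _ _).1 z.2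
    rw [← Units.val_pow_eq_pow_val, h1, Units.val_one]
  have hfin : IsOfFinOrder ((z : kˣ) : k) := isOfFinOrder_iff_pow_eq_one.2 ⟨N, hN, hzN⟩
  set M := orderOf ((z : kˣ) : k) with hM
  have hM0 : 0 < M := hfin.orderOf_pos
  have hcop : Nat.Coprime l M := by
    rw [Nat.Prime.coprime_iff_not_dvd Fact.out]
    rintro ⟨c, hc⟩
    have h1 : (((z : kˣ) : k) ^ c) ^ l = 1 := by
      rw [← pow_mul, mul_comm, ← hc, hM, pow_orderOf_eq_one]
    have h2 : ((z : kˣ) : k) ^ c = 1 := by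
      have h3 : frobenius k l (((z : kˣ) : k) ^ c) = frobenius k l 1 := by
        rw [frobenius_def, frobenius_def, h1, one_pow]
      exact frobenius_inj k l h3
    have h4 : M ∣ c := orderOf_dvd_of_pow_eq_one h2
    have hc0 : 0 < c := by
      rcases Nat.eq_zero_or_pos c with h | h
      · rw [h, mul_zero] at hc
        omega
      · exact h
    have h5 := Nat.le_of_dvd hc0 h4
    have h6 : 2 ≤ l := (Fact.out : l.Prime).two_le
    have h7 : 2 * c ≤ l * c := Nat.mul_le_mul_right _ h6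
    omega
  have hmod : l ^ Nat.totient M ≡ 1 [MOD M] := Nat.ModEq.pow_totient hcop
  have hd0 : Nat.totient M ≠ 0 := (Nat.totient_pos.2 hM0).ne'
  have hzz : ((z : kˣ) : k) ^ l ^ Nat.totient M = ((z : kˣ) : k) := by
    have h1 := (pow_eq_pow_iff_modEq (x := (z : kˣ)) (m := l ^ Nat.totient M) (n := 1)).2
      (by rw [← orderOf_units, ← hM]; exact hmod.symm)
    have h2 := congrArg (fun v : kˣ => (v : k)) h1
    simp only [Units.val_pow_eq_pow_val, pow_one] at h2
    exact h2.symm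
  obtain ⟨j, hj⟩ := endo_pow φ hd0 hzz
  refine ⟨j, fun x hx => ?_⟩
  have hx0 : x ≠ 0 := by
    rintro rfl
    rw [zero_pow hN.ne'] at hx
    exact zero_ne_one hx
  let u : rootsOfUnity N k := ⟨Units.mk0 x hx0, by
    rw [mem_rootsOfUnity]
    apply Units.ext
    rw [Units.val_pow_eq_pow_val, Units.val_mk0, hx, Units.val_one]⟩
  obtain ⟨m, hm⟩ := hz u
  have hm' : x = ((z : kˣ) : k) ^ m := by
    have h1 := congrArg (fun v : rootsOfUnity N k => ((v : kˣ) : k)) hm
    simp only [Subgroup.coe_zpow, Units.val_zpow_eq_zpow_val] at h1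
    exact h1.symm
  rw [hm', map_zpow₀, hj, ← zpow_natCast, ← zpow_natCast, ← zpow_mul, ← zpow_mul, mul_comm]

/-- an element of the decomposition group acts on finitely many elements of the residue field as a power of the
Frobenius automorphism -/
theorem res_pow {P : Ideal (𝓞 (AlgebraicClosure K))} (hP : P.IsPrime) {l : ℕ} (hl : l.Prime)
    (hlP : (l : 𝓞 (AlgebraicClosure K)) ∈ P) {g : AbsGal K} (hg : g ∈ stabD P)
    (X : Finset (𝓞 (AlgebraicClosure K))) : ∃ j : ℕ, ∀ x ∈ X, g • x - x ^ l ^ j ∈ P := by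
  classical
  obtain ⟨v, hv, hlv⟩ := exists_place (K := K) hl hP hlP
  have hover : P.LiesOver v.asIdeal := ⟨hv.symm⟩
  have hPm : P.IsMaximal := by
    have := v.isMaximal
    exact Ideal.IsMaximal.of_liesOver_isMaximal P v.asIdeal
  let _ : Field (𝓞 (AlgebraicClosure K) ⧸ P) := Ideal.Quotient.field P
  have hlF : Fact l.Prime := ⟨hl⟩
  have hchar : CharP (𝓞 (AlgebraicClosure K) ⧸ P) l := by
    refine (CharP.charP_iff_prime_eq_zero hl).2 ?_
    rw [← map_natCast (Ideal.Quotient.mk P)]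
    exact Ideal.Quotient.eq_zero_iff_mem.2 hlP
  let C : 𝓞 (AlgebraicClosure K) ≃+* 𝓞 (AlgebraicClosure K) :=
    MulSemiringAction.toRingEquiv (AbsGal K) (𝓞 (AlgebraicClosure K)) g
  have hC : ∀ x, (C : 𝓞 (AlgebraicClosure K) →+* 𝓞 (AlgebraicClosure K)) x = g • x := fun x => rfl
  let φ : 𝓞 (AlgebraicClosure K) ⧸ P →+* 𝓞 (AlgebraicClosure K) ⧸ P :=
    Ideal.quotientMap P (C : 𝓞 (AlgebraicClosure K) →+* 𝓞 (AlgebraicClosure K))
      (fun x hx => by rw [Ideal.mem_comap, hC]; exact (mem_stabD.1 hg x).1 hx)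
  have hφ : ∀ x, φ (Ideal.Quotient.mk P x) = Ideal.Quotient.mk P (g • x) := fun x => rfl
  have hex : ∀ x : 𝓞 (AlgebraicClosure K), ∃ n : ℕ, 0 < n ∧ (x ∉ P → x ^ n - 1 ∈ P) := by
    intro x
    by_cases hx : x ∈ P
    · exact ⟨1, one_pos, fun h => absurd hx h⟩
    · obtain ⟨n, hn, h1⟩ := ab_fin hP hl hlP hx
      exact ⟨n, hn, fun _ => h1⟩
  choose n hn hn' using hex
  have hN : 0 < ∏ x ∈ X, n x := Finset.prod_pos fun x _ => hn x
  obtain ⟨j, hj⟩ := ab_endo φ hN
  refine ⟨j, fun x hx => ?_⟩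
  by_cases hxP : x ∈ P
  · refine P.sub_mem ((mem_stabD.1 hg x).1 hxP) (P.pow_mem_of_mem hxP _ (pow_pos hl.pos j))
  · have h1 : (Ideal.Quotient.mk P x) ^ n x = 1 := by
      rw [← map_pow, ← sub_eq_zero, ← map_one (Ideal.Quotient.mk P), ← map_sub]
      exact Ideal.Quotient.eq_zero_iff_mem.2 (hn' x hxP)
    have h2 : (Ideal.Quotient.mk P x) ^ ∏ x ∈ X, n x = 1 := by
      obtain ⟨c, hc⟩ := Finset.dvd_prod_of_mem n hx
      rw [hc, pow_mul, h1, one_pow]
    have h3 := hj _ h2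
    rw [hφ, ← map_pow] at h3
    exact Ideal.Quotient.eq.1 h3

/-- the powers of a Frobenius element -/
theorem frob_pow {P : Ideal (𝓞 (AlgebraicClosure K))} {l : ℕ} {σ : AbsGal K}
    (hf : ∀ x : 𝓞 (AlgebraicClosure K), σ • x - x ^ l ∈ P) (hσ : σ ∈ stabD P) (i : ℕ)
    (x : 𝓞 (AlgebraicClosure K)) : σ ^ i • x - x ^ l ^ i ∈ P := by
  induction i with
  | zero => rw [pow_zero, one_smul, pow_zero, pow_one, sub_self]; exact P.zero_mem
  | succ i ih =>
    have h1 : σ • (σ ^ i • x - x ^ l ^ i) ∈ P := (mem_stabD.1 hσ _).1 ih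
    have h2 := hf (x ^ l ^ i)
    rw [smul_sub, ← mul_smul, ← pow_succ'] at h1
    have h3 := P.add_mem h1 h2
    rwa [sub_add_sub_cancel, ← pow_mul, ← pow_succ] at h3

/-- the decomposition group modulo inertia is topologically generated by a Frobenius element -/
theorem frob_dense {P : Ideal (𝓞 (AlgebraicClosure K))} (hP : P.IsPrime) {l : ℕ} (hl : l.Prime)
    (hlP : (l : 𝓞 (AlgebraicClosure K)) ∈ P) {σ : stabD P}
    (hf : ∀ x : 𝓞 (AlgebraicClosure K), (σ : AbsGal K) • x - x ^ l ∈ P) (g : stabD P)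
    {U : Subgroup (stabD P)} (hU : IsOpen (U : Set (stabD P))) :
    ∃ i : ℕ, ∃ n ∈ (P.inertia (AbsGal K)).subgroupOf (stabD P), (σ ^ i * n)⁻¹ * g ∈ U := by
  classical
  have hcomp : CompactSpace (stabD P) :=
    isCompact_iff_compactSpace.1 (stabD_closed P).isCompact
  let S : Set (stabD P) := Set.range fun i : ℕ => (σ ^ i)⁻¹ * g
  let F : Finset (𝓞 (AlgebraicClosure K)) → Set (stabD P) := fun X =>
    {h | h ∈ closure S ∧ ∀ x ∈ X, (h : AbsGal K) • x - x ∈ P}
  have hcl1 : ∀ x : 𝓞 (AlgebraicClosure K),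
      IsClosed {h : stabD P | (h : AbsGal K) • x - x ∈ P} := by
    intro x
    let _ : TopologicalSpace (𝓞 (AlgebraicClosure K)) := ⊥
    have : DiscreteTopology (𝓞 (AlgebraicClosure K)) := ⟨rfl⟩
    have : ContinuousSMul (AbsGal K) (𝓞 (AlgebraicClosure K)) := lt2_smul
    have h1 : {h : stabD P | (h : AbsGal K) • x - x ∈ P} =
        (fun h : stabD P => (h : AbsGal K) • x) ⁻¹' {y | y - x ∈ P} := rfl
    rw [h1]
    exact (isClosed_discrete _).preimage (by fun_prop)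
  have hFc : ∀ X, IsClosed (F X) := by
    intro X
    have h1 : F X = closure S ∩ ⋂ x ∈ X, {h : stabD P | (h : AbsGal K) • x - x ∈ P} := by
      ext h
      simp only [F, Set.mem_ofPred_eq, Set.mem_inter_iff, Set.mem_iInter]
    rw [h1]
    exact isClosed_closure.inter (isClosed_biInter fun x _ => hcl1 x)
  have hne : ∀ X, (F X).Nonempty := by
    intro X
    obtain ⟨j, hj⟩ := res_pow hP hl hlP g.2 X
    refine ⟨(σ ^ j)⁻¹ * g, subset_closure ⟨j, rfl⟩, fun x hx => ?_⟩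
    have h1 := frob_pow hf σ.2 j x
    have h2 := P.sub_mem (hj x hx) h1
    rw [sub_sub_sub_cancel_right] at h2
    have h3 : ((σ ^ j : stabD P) : AbsGal K)⁻¹ • ((g : AbsGal K) • x - (σ : AbsGal K) ^ j • x) ∈ P :=
      (mem_stabD.1 (inv_mem (σ ^ j).2) _).1 h2
    rw [smul_sub, ← mul_smul, ← mul_smul, Subgroup.coe_pow, inv_mul_cancel, one_smul] at h3
    exact h3
  have hdir : Directed (fun A B => B ⊆ A) F := by
    intro X Y
    refine ⟨X ∪ Y, fun h hh => ⟨hh.1, fun x hx => hh.2 x (Finset.mem_union_left _ hx)⟩,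
      fun h hh => ⟨hh.1, fun x hx => hh.2 x (Finset.mem_union_right _ hx)⟩⟩
  obtain ⟨h, hh⟩ := IsCompact.nonempty_iInter_of_directed_nonempty_isCompact_isClosed F hdir hne
    (fun X => (hFc X).isCompact) hFc
  rw [Set.mem_iInter] at hh
  have hI : h ∈ (P.inertia (AbsGal K)).subgroupOf (stabD P) := fun x => (hh {x}).2 x (by simp)
  have h2 : (fun x : stabD P => h * x) '' (U : Set (stabD P)) ∈ nhds h :=
    (isOpenMap_mul_left h _ hU).mem_nhds ⟨1, U.one_mem, mul_one h⟩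
  obtain ⟨_, ⟨w, hw, rfl⟩, ⟨i, hi⟩⟩ := mem_closure_iff_nhds.1 (hh ∅).1 _ h2
  refine ⟨i, h, hI, ?_⟩
  have h3 : (σ ^ i)⁻¹ * g = h * w := hi
  have h4 : (σ ^ i * h)⁻¹ * g = w := by
    rw [mul_inv_rev, mul_assoc, h3, inv_mul_cancel_left]
  rw [h4]
  exact hw

/-! ### elements that fix the roots of unity and the roots of `l` -/

private theorem ab_pow {r : ℕ → AlgebraicClosure K} {a : AbsGal K → ℤ_[2]} (hr : IsKum r a)
    {g : AbsGal K} (hc : cyc g = 1) (ha : a g = 0) (n : ℕ) : cyc (g ^ n) = 1 ∧ a (g ^ n) = 0 := by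
  have hc1 : cyc (1 : AbsGal K) = 1 := PA.isChar_cyc.one
  induction n with
  | zero =>
    rw [pow_zero]
    refine ⟨hc1, ?_⟩
    have h := hr.coc 1 1
    rw [mul_one, hc1, one_mul] at h
    exact left_eq_add.1 h
  | succ n ih =>
    rw [pow_succ]
    refine ⟨?_, ?_⟩
    · rw [PA.isChar_cyc.mul, ih.1, hc, one_mul]
    · rw [hr.coc, ih.2, ha, mul_zero, add_zero]

private theorem ab_tame {P : Ideal (𝓞 (AlgebraicClosure K))} (hP : P.IsPrime) {l : ℕ} (hl : l.Prime)
    (hlP : (l : 𝓞 (AlgebraicClosure K)) ∈ P) (h2 : (2 : 𝓞 (AlgebraicClosure K)) ∉ P)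
    {r : ℕ → AlgebraicClosure K} {a : AbsGal K → ℤ_[2]} (hr : IsKum r a)
    (h0 : r 0 = (l : AlgebraicClosure K)) {g : AbsGal K} (hg : g ∈ stabD P) (hc : cyc g = 1)
    (ha : a g = 0) {U : Subgroup (AbsGal K)} (hU : IsOpen (U : Set (AbsGal K))) (hn : U.Normal)
    (k : ℕ) (hk : g ^ 2 ^ k ∈ U) : g ∈ U := by
  induction k with
  | zero => simpa using hk
  | succ k ih =>
    apply ih
    obtain ⟨h3, h4⟩ := ab_pow hr hc ha (2 ^ k)
    refine tame hP hl hlP h2 hr h0 (Subgroup.pow_mem _ hg _) h3 h4 hU hn ?_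
    rw [← pow_add, ← two_mul, ← pow_succ']
    exact hk

theorem po_of_kum {P : Ideal (𝓞 (AlgebraicClosure K))} (hP : P.IsPrime) {l : ℕ} (hl : l.Prime)
    (hlP : (l : 𝓞 (AlgebraicClosure K)) ∈ P) (h2 : (2 : 𝓞 (AlgebraicClosure K)) ∉ P)
    {r : ℕ → AlgebraicClosure K} {a : AbsGal K → ℤ_[2]} (hr : IsKum r a)
    (h0 : r 0 = (l : AlgebraicClosure K)) {g : stabD P} (hc : cyc (g : AbsGal K) = 1)
    (ha : a g = 0) {U : Subgroup (stabD P)} (hU : IsOpen (U : Set (stabD P)))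
    (hgg : g * g ∈ U) : g ∈ U := by
  -- an open normal subgroup of the whole group
  obtain ⟨O, hO, hO1⟩ := isOpen_induced_iff.1 hU
  have h1O : O ∈ nhds (1 : AbsGal K) := by
    refine hO.mem_nhds ?_
    have h3 : (1 : stabD P) ∈ ((↑) : stabD P → AbsGal K) ⁻¹' O := by
      rw [hO1]
      exact U.one_mem
    exact h3
  obtain ⟨V, hVO⟩ := ProfiniteGrp.exist_openNormalSubgroup_sub_open_nhds_of_one hO
    (mem_of_mem_nhds h1O)
  have hVn : (V.toSubgroup).Normal := V.isNormal'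
  have hVo : IsOpen ((V.toSubgroup : Subgroup (AbsGal K)) : Set (AbsGal K)) := V.isOpen'
  have hVU : ∀ x : stabD P, (x : AbsGal K) ∈ V.toSubgroup → x ∈ U := by
    intro x hx
    have h3 : x ∈ ((↑) : stabD P → AbsGal K) ⁻¹' O := hVO hx
    rw [hO1] at h3
    exact h3
  -- the order of `g` modulo `V` is odd
  have hfin : Finite (AbsGal K ⧸ V.toSubgroup) := Subgroup.quotient_finite_of_isOpen _ hVo
  set N := orderOf ((g : AbsGal K) : AbsGal K ⧸ V.toSubgroup) with hN
  have hN0 : 0 < N := orderOf_pos _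
  obtain ⟨k, m, hm, hkm⟩ := Nat.exists_eq_two_pow_mul_odd hN0.ne'
  have hmem : ∀ i : ℕ, (g : AbsGal K) ^ i ∈ V.toSubgroup ↔ N ∣ i := by
    intro i
    rw [hN, orderOf_dvd_iff_pow_eq_one, ← QuotientGroup.mk_pow, QuotientGroup.eq_one_iff]
  have h3 : (g : AbsGal K) ^ m ∈ V.toSubgroup := by
    obtain ⟨h4, h5⟩ := ab_pow hr hc ha m
    refine ab_tame hP hl hlP h2 hr h0 (Subgroup.pow_mem _ g.2 m) h4 h5 hVo hVn k ?_
    rw [← pow_mul, mul_comm, hmem, hkm]
  have h4 : g ^ m ∈ U := hVU _ (by rw [Subgroup.coe_pow]; exact h3)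
  obtain ⟨c, hc'⟩ := hm
  have h5 : g ^ m = (g * g) ^ c * g := by
    rw [hc', ← pow_two, ← pow_mul, pow_succ]
  rw [h5] at h4
  exact (U.mul_mem_cancel_left (U.pow_mem hgg c)).1 h4

/-- the arithmetic instance of `TameX` -/
theorem exists_tameX {D : ℕ} {s : K} (hK : IsQ K D s) {l : ℕ} (hl : Spl D l)
    {Q : Ideal (𝓞 (AlgebraicClosure K))} (hQ : Q.IsPrime)
    (hlQ : (l : 𝓞 (AlgebraicClosure K)) ∈ Q) :
    ∃ (a : stabD Q → ℤ_[2]) (σ τ : stabD Q),
      TameX (fun g : stabD Q => cyc (g : AbsGal K)) a σ τ l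
        ((Q.inertia (AbsGal K)).subgroupOf (stabD Q)) := by
  have h2 := two_notMem hl.1 hl.2.1 hQ hlQ
  obtain ⟨r, h0, hsq⟩ := exists_roots (K := K) (l : AlgebraicClosure K)
  have hl0 : r 0 ≠ 0 := by
    rw [h0]
    exact_mod_cast hl.1.ne_zero
  obtain ⟨a, hr⟩ := exists_isKum hl0 (fun g => by rw [h0, map_natCast]) hsq
  obtain ⟨τ, hτi, hτ, hτc, hτa⟩ := exists_tauQ hK hl hQ hlQ hr h0 1
  obtain ⟨σ, hσ, hf, hσc, hσa⟩ := exists_sigmaQ hK hl hQ hlQ hr h0
  have hut : UT (K := K) {l} (r 0) := by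
    rw [h0]
    exact ut_l hl.1 (Finset.mem_singleton_self l)
  refine ⟨fun g => a g, ⟨σ, hσ⟩, ⟨τ, hτ⟩, ⟨⟨?_, ?_, ?_, ?_⟩, ?_, ?_, ?_, ?_, hσc, hσa, hτc, hτa,
    ?_, ?_, ?_, ?_, hτi, ?_⟩⟩
  · exact PA.isChar_cyc.one
  · exact fun g h => PA.isChar_cyc.mul _ _
  · exact fun g => PA.isChar_cyc.odd _
  · exact fun g h => hr.coc _ _
  · exact cyc_cont.comp continuous_subtype_val
  · exact (kum_cont hr hut).comp continuous_subtype_val
  · exact hl.1.odd_of_ne_two hl.2.1
  · have h3 := hl.1.two_le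
    have h4 := hl.2.1
    omega
  · -- density
    intro g n
    obtain ⟨ζ, hζ⟩ : ∃ ζ : AlgebraicClosure K, IsPrimitiveRoot ζ (2 ^ n) :=
      HasEnoughRootsOfUnity.exists_primitiveRoot _ _
    have hζi : IsIntegral ℤ ζ := hζ.isIntegral (by positivity)
    let z : 𝓞 (AlgebraicClosure K) := ⟨ζ, hζi⟩
    have hz : z ^ 2 ^ n = 1 := by
      apply RingOfIntegers.ext
      show ζ ^ 2 ^ n = 1
      exact hζ.pow_eq_one
    have hgz : (g : AbsGal K) • z = z ^ (PadicInt.toZModPow n (cyc (g : AbsGal K))).val := by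
      apply RingOfIntegers.ext
      exact inert_spec _ hζ.pow_eq_one
    obtain ⟨j, hj⟩ := res_pow hQ hl.1 hlQ g.2 {z}
    have h3 := hj z (Finset.mem_singleton_self z)
    refine ⟨j, ?_⟩
    rw [hgz] at h3
    have h4 := inert_root h2 hz h3
    have h5 : ζ ^ (PadicInt.toZModPow n (cyc (g : AbsGal K))).val = ζ ^ l ^ j :=
      congrArg (algebraMap (𝓞 (AlgebraicClosure K)) (AlgebraicClosure K)) h4
    have : NeZero (2 ^ n) := ⟨by positivity⟩
    have h7 : ζ ^ l ^ j = ζ ^ (l ^ j % 2 ^ n) := by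
      conv_lhs => rw [← Nat.mod_add_div (l ^ j) (2 ^ n), pow_add, pow_mul, hζ.pow_eq_one, one_pow,
        mul_one]
    rw [h7] at h5
    have h8 := hζ.pow_inj (ZMod.val_lt _) (Nat.mod_lt _ (by positivity)) h5
    have h9 : ((PadicInt.toZModPow n (cyc (g : AbsGal K))).val : ZMod (2 ^ n)) = (l ^ j : ℕ) := by
      rw [h8, ZMod.natCast_mod]
    rw [ZMod.natCast_zmod_val] at h9
    have h10 : cyc (g : AbsGal K) - (l : ℤ_[2]) ^ j ∈
        RingHom.ker (PadicInt.toZModPow (p := 2) n) := by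
      rw [RingHom.mem_ker, map_sub, h9, map_pow, map_natCast]
      push_cast
      exact sub_self _
    rw [PadicInt.ker_toZModPow, Ideal.mem_span_singleton] at h10
    exact_mod_cast h10
  · exact fun g hc ha U _ hU hgg => po_of_kum hQ hl.1 hlQ h2 hr h0 hc ha hU hgg
  · -- the inertia group is normal
    refine ⟨fun n hn g => ?_⟩
    intro x
    have h3 : (n : AbsGal K) • ((g : AbsGal K)⁻¹ • x) - (g : AbsGal K)⁻¹ • x ∈ Q := hn _
    have h4 : (g : AbsGal K) • ((n : AbsGal K) • ((g : AbsGal K)⁻¹ • x) - (g : AbsGal K)⁻¹ • x) ∈ Q :=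
      (mem_stabD.1 g.2 _).1 h3
    rw [smul_sub, smul_inv_smul, ← mul_smul, ← mul_smul] at h4
    exact h4
  · exact fun g hg => cyc_inertia hQ h2 hg
  · exact fun g U _ hU => frob_dense hQ hl.1 hlQ (σ := ⟨σ, hσ⟩) hf g hU

end Pool.Agent.Work.MP_787500_nt.LB
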