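import Mathlib
import Pool.Agent.Work.MP_787500_nt.LB.Defs
import Pool.Agent.Work.MP_787500_nt.KR.C1_Cor
import Pool.Agent.Work.MP_787500_nt.KR.C2_Proj

/-!
Corestriction of continuous cocycles from an open normal subgroup; cocycles whose restriction to the inertia
group is a coboundary.
-/

set_option autoImplicit false
set_option linter.unusedSectionVars false

namespace Pool.Agent.Work.MP_787500_nt.LB

open Matrix
open Pool.Agent.Work.MP_787500_nt.PA (toE)
open Pool.Agent.Work.MP_787500_nt.GP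
open Pool.Agent.Work.MP_787500_nt.KR (Tra traQ repQ cor1 cor2 zet traQ_s traQ_i traQ_u)

section cont

variable {D : Type*} [Group D] [TopologicalSpace D] [IsTopologicalGroup D] {N : Subgroup D}

theorem cont_smul (hN : IsOpen (N : Set D)) (v : D ⧸ N) {X : Type*} (s : D ⧸ N → X)
    [TopologicalSpace X] : Continuous fun g : D => s (g⁻¹ • v) := by
  have hd : DiscreteTopology (D ⧸ N) := QuotientGroup.discreteTopology hN
  have h1 : Continuous fun g : D => g⁻¹ • v := by
    obtain ⟨x, rfl⟩ := QuotientGroup.mk_surjective v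
    exact QuotientGroup.continuous_mk.comp (continuous_inv.mul continuous_const)
  exact continuous_of_discreteTopology.comp h1

theorem cont_u (hN : IsOpen (N : Set D)) (v : D ⧸ N) : Continuous fun g : D => (traQ N).u g v := by
  refine Continuous.subtype_mk ?_ _
  exact (continuous_const.mul continuous_id).mul (cont_smul hN v (repQ N))

end cont

section

variable {D : Type*} [Group D] [TopologicalSpace D] [IsTopologicalGroup D] {N : Subgroup D}
  [Fintype (D ⧸ N)]
  {E : Type*} [NormedField E] [NormedAlgebra ℚ_[2] E] [FiniteDimensional ℚ_[2] E] {n : ℕ}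
  {A : D → Matrix (Fin n) (Fin n) E}

theorem act_mat (h1 : A 1 = 1) (hm : ∀ s t, A (s * t) = A s * A t) :
    IsAct (fun g (m : Fin n → E) => A g *ᵥ m) :=
  ⟨fun m => by rw [h1, one_mulVec], fun g h m => by rw [hm, mulVec_mulVec],
    fun g m m' => mulVec_add _ _ _⟩

theorem cor1_cont (hN : IsOpen (N : Set D)) {x : N → Fin n → E} (hx : Continuous x) :
    Continuous (cor1 (traQ N) (fun g (m : Fin n → E) => A g *ᵥ m) x) := by
  unfold cor1
  exact continuous_finsetSum _ fun v _ =>
    Continuous.matrix_mulVec continuous_const (hx.comp (cont_u hN v))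

theorem charZero_E (E : Type*) [NormedField E] [NormedAlgebra ℚ_[2] E] : CharZero E :=
  charZero_of_injective_algebraMap (algebraMap ℚ_[2] E).injective

/-- a cocycle whose restriction to a subgroup of finite index of `I` is a coboundary is a coboundary on
`I` -/
theorem cob_of_index {I : Subgroup D} {x : D → Fin n → E} (h1 : A 1 = 1)
    (hm : ∀ s t, A (s * t) = A s * A t)
    (hx : ∀ s t, x (s * t) = x s + A s *ᵥ x t)
    {w : Fin n → E} (hw : ∀ g ∈ I ⊓ N, x g = A g *ᵥ w - w) :
    ∃ w', ∀ g ∈ I, x g = A g *ᵥ w' - w' := by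
  classical
  have hc := charZero_E E
  let J : Subgroup I := N.subgroupOf I
  have hfN : N.FiniteIndex := Subgroup.finiteIndex_of_finite_quotient
  have hfJ : Finite (I ⧸ J) := by
    have : J.FiniteIndex := inferInstance
    exact Subgroup.finite_quotient_of_finiteIndex
  have hFJ : Fintype (I ⧸ J) := Fintype.ofFinite _
  let y : I → Fin n → E := fun g => x g - (A g *ᵥ w - w)
  have hy : ∀ s t : I, y (s * t) = y s + A s *ᵥ y t := by
    intro s t
    show x ((s : D) * t) - (A ((s : D) * t) *ᵥ w - w) = _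
    rw [hx, hm, ← mulVec_mulVec]
    show _ = x s - (A s *ᵥ w - w) + A s *ᵥ (x t - (A t *ᵥ w - w))
    rw [mulVec_sub, mulVec_sub]
    abel
  have hyJ : ∀ j ∈ J, y j = 0 := by
    intro j hj
    show x j - (A j *ᵥ w - w) = 0
    rw [hw j ⟨j.2, hj⟩, sub_self]
  have hyc : ∀ s t : I, (s : I ⧸ J) = t → y s = y t := by
    intro s t hst
    have h2 : s⁻¹ * t ∈ J := QuotientGroup.eq.1 hst
    have h3 := hy s (s⁻¹ * t)
    rw [mul_inv_cancel_left, hyJ _ h2, mulVec_zero, add_zero] at h3
    exact h3.symm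
  set S : Fin n → E := ∑ q : I ⧸ J, y q.out with hS
  have hk : (Fintype.card (I ⧸ J) : E) ≠ 0 := by
    exact_mod_cast Fintype.card_ne_zero
  have key : ∀ g : I, (Fintype.card (I ⧸ J) : E) • y g = S - A g *ᵥ S := by
    intro g
    have h2 : ∑ q : I ⧸ J, y (g * q.out) = S := by
      rw [hS, ← Fintype.sum_equiv (MulAction.toPerm g) (fun q : I ⧸ J => y (g • q).out)
        (fun q => y q.out) (fun q => rfl)]
      refine Finset.sum_congr rfl fun q _ => hyc _ _ ?_
      have h3 : ((g * q.out : I) : I ⧸ J) = g • ((q.out : I) : I ⧸ J) := rfl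
      rw [h3, QuotientGroup.out_eq', QuotientGroup.out_eq']
    have h4 : ∑ q : I ⧸ J, y (g * q.out) = (Fintype.card (I ⧸ J) : E) • y g + A g *ᵥ S := by
      simp only [hy, Finset.sum_add_distrib, Finset.sum_const, Finset.card_univ]
      rw [hS, Matrix.mulVec_sum, Nat.cast_smul_eq_nsmul]
    have h5 := h4.symm.trans h2
    exact eq_sub_of_add_eq h5
  refine ⟨w - (Fintype.card (I ⧸ J) : E)⁻¹ • S, fun g hg => ?_⟩
  have h6 := key ⟨g, hg⟩
  have h7 : x g = (A g *ᵥ w - w) + y ⟨g, hg⟩ := by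
    show _ = _ + (x g - (A g *ᵥ w - w))
    abel
  have h8 : y ⟨g, hg⟩ = (Fintype.card (I ⧸ J) : E)⁻¹ • (S - A g *ᵥ S) := by
    rw [← h6, smul_smul, inv_mul_cancel₀ hk, one_smul]
  rw [h7, h8, mulVec_sub, mulVec_smul, smul_sub]
  abel

/-- the corestriction of a cocycle whose restriction to the inertia group is a coboundary -/
theorem cor_fD (hN : IsOpen (N : Set D)) (hNn : N.Normal) {I : Subgroup D} (hI : I.Normal)
    (h1 : A 1 = 1) (hm : ∀ s t, A (s * t) = A s * A t) {x : N → Fin n → E}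
    (hx : Parity.IsCocycle (fun g : N => A g) x) {w : Fin n → E}
    (hw : ∀ g : N, (g : D) ∈ I → x g = A g *ᵥ w - w) :
    cor1 (traQ N) (fun g (m : Fin n → E) => A g *ᵥ m) x ∈ fD I A := by
  have hact := act_mat h1 hm
  refine ⟨⟨cor1_cont hN hx.1, fun s t => KR.cor1_coc (traQ N) hact (fun a b => hx.2 a b) s t⟩, ?_⟩
  refine cob_of_index (N := N) h1 hm (w := ∑ v, A (repQ N v) *ᵥ w)
    (fun s t => KR.cor1_coc (traQ N) hact (fun a b => hx.2 a b) s t) ?_
  rintro g ⟨hgI, hgN⟩
  have hgv : ∀ v : D ⧸ N, g⁻¹ • v = v := by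
    intro v
    obtain ⟨y, rfl⟩ := QuotientGroup.mk_surjective v
    have h2 : g⁻¹ • (y : D ⧸ N) = ((g⁻¹ * y : D) : D ⧸ N) := rfl
    rw [h2, QuotientGroup.eq]
    have h3 := hNn.conj_mem g hgN y⁻¹
    rw [inv_inv] at h3
    rwa [_root_.mul_inv_rev, inv_inv]
  show ∑ v, A (repQ N v) *ᵥ x ((traQ N).u g v) = _
  rw [Matrix.mulVec_sum, ← Finset.sum_sub_distrib]
  refine Finset.sum_congr rfl fun v _ => ?_
  have hu : (((traQ N).u g v : N) : D) = (repQ N v)⁻¹ * g * repQ N v := by
    rw [traQ_u, hgv]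
  have huI : (((traQ N).u g v : N) : D) ∈ I := by
    rw [hu]
    have h3 := hI.conj_mem g hgI (repQ N v)⁻¹
    rwa [inv_inv] at h3
  rw [hw _ huI, mulVec_sub, mulVec_mulVec, ← hm, hu]
  have e : repQ N v * ((repQ N v)⁻¹ * g * repQ N v) = g * repQ N v := by group
  rw [e, hm, mulVec_mulVec]

end

end Pool.Agent.Work.MP_787500_nt.LB
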