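import Mathlib
import Pool.Agent.Work.MP_787500_nt.LB.Cor
import Pool.Agent.Work.MP_787500_nt.LB.TameN
import Pool.Agent.Work.MP_787500_nt.GP.B3_TameD
import Pool.Agent.Work.MP_787500_nt.KR.CocN

/-!
The annihilator of the cocycles whose restriction to the inertia group is a coboundary.
-/

set_option autoImplicit false
set_option linter.unusedSectionVars false

namespace Pool.Agent.Work.MP_787500_nt.LB

open Matrix
open Pool.Agent.Work.MP_787500_nt.PA (toE)
open Pool.Agent.Work.MP_787500_nt.GP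
open Pool.Agent.Work.MP_787500_nt.Gn (GoodG)
open Pool.Agent.Work.MP_787500_nt.KR (Tra traQ repQ cor1 cor2 zet traQ_s traQ_i traQ_u)
open Pool.Agent.Work.MP_787500_nt.HP (f_perp f_inertia be_iff_iota)

section plain

variable {D : Type*} [Group D] {χ a : D → ℤ_[2]} {E : Type*} [NormedField E] [NormedAlgebra ℚ_[2] E]

/-- the ring homomorphism `toE` -/
noncomputable def toEh (E : Type*) [NormedField E] [NormedAlgebra ℚ_[2] E] : ℤ_[2] →+* E :=
  (algebraMap ℚ_[2] E).comp PadicInt.Coe.ringHom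

theorem toEh_apply (x : ℤ_[2]) : toEh E x = toE E x := rfl

theorem toE_inj {x : ℤ_[2]} (h : toE E x = 0) : x = 0 := by
  have h1 : algebraMap ℚ_[2] E (x : ℚ_[2]) = algebraMap ℚ_[2] E 0 := by
    rw [map_zero]
    exact h
  exact Subtype.ext ((algebraMap ℚ_[2] E).injective h1)

theorem toE_cont {X : Type*} [TopologicalSpace X] {f : X → ℤ_[2]} (hf : Continuous f) :
    Continuous fun x => toE E (f x) :=
  (continuous_algebraMap ℚ_[2] E).comp (continuous_subtype_val.comp hf)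

/-- the action on `E` by the character -/
theorem act_chi (h : Pr χ a) : IsAct (fun g (m : E) => toE E (χ g) * m) := by
  refine ⟨fun m => ?_, fun g g' m => ?_, fun g m m' => mul_add _ _ _⟩
  · rw [← toEh_apply, h.one, map_one, one_mul]
  · rw [← toEh_apply, ← toEh_apply, ← toEh_apply, h.mul, map_mul, mul_assoc]

/-- the class `a ∪ lam χ` -/
noncomputable def F0 (E : Type*) [NormedField E] [NormedAlgebra ℚ_[2] E] (χ a : D → ℤ_[2])
    (lam : ℤ_[2] → ℤ_[2]) (g h : D) : E := toE E (a g * lam (χ h))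

theorem F0_coc (h : Pr χ a) {lam : ℤ_[2] → ℤ_[2]} (hlam : IsLam lam) (g g' k : D) :
    F0 E χ a lam g g' + F0 E χ a lam (g * g') k =
      toE E (χ g) * F0 E χ a lam g' k + F0 E χ a lam g (g' * k) := by
  have h1 : lam (χ (g' * k)) = lam (χ g') + lam (χ k) := by
    rw [h.mul, hlam.mul _ _ (unit_of_odd (h.odd _)) (unit_of_odd (h.odd _))]
  unfold F0
  rw [h1, h.coc]
  simp only [← toEh_apply, ← map_mul, ← map_add]
  congr 1
  ring

theorem lam_zero {lam : ℤ_[2] → ℤ_[2]} (hlam : IsLam lam) : lam 1 = 0 := by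
  have := hlam.mul 1 1 isUnit_one isUnit_one
  rw [mul_one] at this
  exact left_eq_add.1 this

/-- `lam` of a natural number greater than 1 is not zero -/
theorem lam_ne {lam : ℤ_[2] → ℤ_[2]} (hlam : IsLam lam) {q : ℕ} (hq : Odd q) (hlt : 2 < q) :
    lam (q : ℤ_[2]) ≠ 0 := by
  intro h0
  have hu : IsUnit (q : ℤ_[2]) := unit_of_odd (by
    obtain ⟨r, hr⟩ := hq
    refine ⟨r, ?_⟩
    rw [hr]
    push_cast
    ring)
  have h1 : ∀ m : ℕ, (2 : ℤ_[2]) ^ (m + 2) ∣ (q : ℤ_[2]) - 1 ∨ (2 : ℤ_[2]) ^ (m + 2) ∣ (q : ℤ_[2]) + 1 := by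
    intro m
    refine (hlam.dvd _ hu m).1 ?_
    rw [h0]
    exact dvd_zero _
  rcases h1 q with h2 | h2
  · have h3 : ((2 ^ (q + 2) : ℕ) : ℤ_[2]) ∣ ((q - 1 : ℕ) : ℤ_[2]) := by
      push_cast [Nat.cast_sub (show 1 ≤ q by omega)]
      exact h2
    have h4 : ((2 : ℤ) ^ (q + 2)) ∣ ((q - 1 : ℕ) : ℤ) := by
      have h5 := (PadicInt.pow_p_dvd_int_iff (p := 2) (q + 2) ((q - 1 : ℕ) : ℤ)).1 (by
        push_cast at h3 ⊢
        exact_mod_cast h3)
      exact_mod_cast h5
    have h6 : 2 ^ (q + 2) ∣ q - 1 := by exact_mod_cast h4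
    have h7 := Nat.le_of_dvd (by omega) h6
    have h8 : q + 2 < 2 ^ (q + 2) := Nat.lt_two_pow_self
    omega
  · have h3 : ((2 ^ (q + 2) : ℕ) : ℤ_[2]) ∣ ((q + 1 : ℕ) : ℤ_[2]) := by
      push_cast
      exact h2
    have h4 : ((2 : ℤ) ^ (q + 2)) ∣ ((q + 1 : ℕ) : ℤ) := by
      have h5 := (PadicInt.pow_p_dvd_int_iff (p := 2) (q + 2) ((q + 1 : ℕ) : ℤ)).1 (by
        push_cast at h3 ⊢
        exact_mod_cast h3)
      exact_mod_cast h5
    have h6 : 2 ^ (q + 2) ∣ q + 1 := by exact_mod_cast h4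
    have h7 := Nat.le_of_dvd (by omega) h6
    have h8 : q + 2 < 2 ^ (q + 2) := Nat.lt_two_pow_self
    omega

end plain

variable {D : Type*} [Group D] [TopologicalSpace D] [IsTopologicalGroup D] [CompactSpace D]
  {χ a : D → ℤ_[2]} {σ τ : D} {l : ℕ} {I : Subgroup D}
  {E : Type*} [NormedField E] [NormedAlgebra ℚ_[2] E] [FiniteDimensional ℚ_[2] E] {n : ℕ}
  {A B : D → Matrix (Fin n) (Fin n) E}

theorem lam_cont {lam : ℤ_[2] → ℤ_[2]} (hlam : IsLam lam) (h : Pr χ a) (hχ : Continuous χ) :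
    Continuous fun g => lam (χ g) := by
  rw [continuous_iff_continuousAt]
  intro g
  rw [Metric.continuousAt_iff']
  intro ε hε
  obtain ⟨m, hm⟩ := exists_pow_lt_of_lt_one hε (show (1 / 2 : ℝ) < 1 by norm_num)
  have h1 : {x : D | (2 : ℤ_[2]) ^ (m + 2) ∣ χ (g⁻¹ * x) - 1} ∈ nhds g := by
    have h2 : IsOpen {x : D | (2 : ℤ_[2]) ^ (m + 2) ∣ χ (g⁻¹ * x) - 1} :=
      (dvd_clopen (m + 2)).isOpen.preimage
        ((hχ.comp (continuous_const.mul continuous_id)).sub continuous_const)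
    refine h2.mem_nhds ?_
    show _ ∣ χ (g⁻¹ * g) - 1
    rw [inv_mul_cancel, h.one, sub_self]
    exact dvd_zero _
  filter_upwards [h1] with x hx
  have e : x = g * (g⁻¹ * x) := by group
  have h3 : lam (χ x) - lam (χ g) = lam (χ (g⁻¹ * x)) := by
    conv_lhs => rw [e]
    rw [h.mul, hlam.mul _ _ (unit_of_odd (h.odd _)) (unit_of_odd (h.odd _))]
    ring
  have h4 : (2 : ℤ_[2]) ^ m ∣ lam (χ (g⁻¹ * x)) :=
    (hlam.dvd _ (unit_of_odd (h.odd _)) m).2 (Or.inl hx)
  rw [dist_eq_norm, h3]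
  have h5 : ‖lam (χ (g⁻¹ * x))‖ ≤ (2 : ℝ) ^ (-(m : ℤ)) := by
    have h6 := (PadicInt.norm_le_pow_iff_mem_span_pow (lam (χ (g⁻¹ * x))) m).2 (by
      rw [Ideal.mem_span_singleton]
      exact_mod_cast h4)
    exact_mod_cast h6
  refine h5.trans_lt ?_
  rw [_root_.zpow_neg, zpow_natCast]
  have : ((2 : ℝ) ^ m)⁻¹ = (1 / 2) ^ m := by
    rw [one_div, inv_pow]
  rw [this]
  exact hm

/-- the pairing as a biadditive map -/
def bilH (b : Matrix (Fin n) (Fin n) E) : (Fin n → E) →+ (Fin n → E) →+ E :=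
  AddMonoidHom.mk' (fun x => AddMonoidHom.mk' (fun y => bil b x y) (fun y y' => bil_add_right x y y'))
    (fun x x' => by
      refine DFunLike.ext _ _ fun y => ?_
      exact bil_add_left x x' y)

theorem bilH_apply (b : Matrix (Fin n) (Fin n) E) (x y : Fin n → E) : bilH b x y = bil b x y := rfl

/-- the restriction of a representation that is pro-2 on `M` to a subgroup of `M` -/
theorem proRep_N {M N : Subgroup D} (hNM : N ≤ M) (hA : KR.ProRep M A) :
    HP.ProRep (fun g : N => A g) :=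
  ⟨hA.one, fun s t => hA.mul _ _, hA.cont.comp continuous_subtype_val,
    fun s => hA.pro s (hNM s.2)⟩

theorem n1_cont (hbasis : ∀ O ∈ nhds (1 : D), ∃ U : Subgroup D, IsOpen (U : Set D) ∧ (U : Set D) ⊆ O)
    {N : Subgroup D} (hN : IsOpen (N : Set D)) {X : Type*} [NormedAddCommGroup X] {z : N → X}
    (hz : PA.N1 (subSys N) z) : Continuous z := by
  have hNc : IsClosed (N : Set D) := Subgroup.isClosed_of_isOpen N hN
  have h3 : Gn.N1 (GoodG 2 ⊤ (∅ : Set N)) z := by
    intro ε hε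
    obtain ⟨W, hW, h⟩ := hz ε hε
    exact ⟨W, (HP.subSys_iff hbasis hNc W).1 hW, h⟩
  exact h3.continuous

/-- cocycles that are coboundaries on the inertia group are orthogonal -/
theorem perp_of_f (h : TameX χ a σ τ l I)
    (hbasis : ∀ O ∈ nhds (1 : D), ∃ U : Subgroup D, IsOpen (U : Set D) ∧ (U : Set D) ⊆ O)
    {M : Subgroup D} (hM : M.Normal) (hMo : IsOpen (M : Set D)) (hA : KR.ProRep M A)
    (hB : KR.ProRep M B) {b : Matrix (Fin n) (Fin n) E} (hb : b.det ≠ 0)
    (hdual : ∀ d x y, bil b (A d *ᵥ x) (B d *ᵥ y) = toE E (χ d) * bil b x y) {y : D → Fin n → E}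
    (hy : y ∈ fD I B) :
    Parity.IsPerp (fun d => toE E (χ d)) B b (fD I A : Set (D → Fin n → E)) y := by
  obtain ⟨N, a', c, σ', τ', q, hNM, hNn, hNo, -, -, ⟨j, hj⟩, -, hT⟩ := h.exists_N hM hMo
  have hNc : IsClosed (N : Set D) := Subgroup.isClosed_of_isOpen N hNo
  have hfin : Finite (D ⧸ N) := Subgroup.quotient_finite_of_isOpen N hNo
  have hft : Fintype (D ⧸ N) := Fintype.ofFinite _
  have hAN := proRep_N hNM hA
  have hBN := proRep_N hNM hB
  have hsA := HP.sub_small hbasis hNc hAN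
  have hsB := HP.sub_small hbasis hNc hBN
  have hτI : (τ' : D) ∈ I := by
    rw [hj]
    exact I.pow_mem h.τI j
  obtain ⟨hy1, v, hv⟩ := hy
  refine ⟨hy1, ?_⟩
  rintro x ⟨hx1, u, hu⟩
  have hxN : ZV (subSys N) (fun g : N => A g) (fun g : N => x g) :=
    (HP.sub_coc hbasis hNc hAN).1 ⟨hx1.1.comp continuous_subtype_val, fun s t => hx1.2 s t⟩
  have hyN : ZV (subSys N) (fun g : N => B g) (fun g : N => y g) :=
    (HP.sub_coc hbasis hNc hBN).1 ⟨hy1.1.comp continuous_subtype_val, fun s t => hy1.2 s t⟩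
  obtain ⟨w, hw, hFw⟩ := (f_perp hT hsA hsB (fun d => hdual d) hb hyN).2 ⟨v, hv _ hτI⟩ _ hxN
    ⟨u, hu _ hτI⟩
  set T := traQ N with hTdef
  let π : D → E → E := fun g m => toE E (χ g) * m
  have hπ : IsAct π := act_chi h.toPr
  let F : D → D → E := fun g k => bil b (x g) (B g *ᵥ y k)
  have hF : ∀ g k m, d2 π F g k m = 0 := by
    intro g k m
    show toE E (χ g) * bil b (x k) (B k *ᵥ y m) - bil b (x (g * k)) (B (g * k) *ᵥ y m) +
      bil b (x g) (B g *ᵥ y (k * m)) - bil b (x g) (B g *ᵥ y k) = 0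
    rw [hx1.2, hy1.2, hB.mul, mulVec_add, bil_add_right, bil_add_left, ← hdual, mulVec_mulVec]
    ring
  have h1 := KR.cor2_res T hπ hF
  have h2 := KR.cor2_d1 T hπ w
  have hFw' : (fun s t : N => F (T.i s) (T.i t)) = d1 (fun c : N => π (T.i c)) w := hFw
  have hk : (Fintype.card (D ⧸ N) : E) ≠ 0 := by
    have hc := charZero_E E
    exact_mod_cast Fintype.card_ne_zero
  refine ⟨fun g => (Fintype.card (D ⧸ N) : E)⁻¹ * (cor1 T π w g - ∑ v, zet T F v g), ?_,
    fun s t => ?_⟩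
  · refine continuous_const.mul (Continuous.sub ?_ (continuous_finsetSum _ fun v _ => ?_))
    · unfold cor1
      exact continuous_finsetSum _ fun v _ =>
        continuous_const.mul ((n1_cont hbasis hNo hw).comp (cont_u hNo v))
    · show Continuous fun g => bil b (x (T.s v)) (B (T.s v) *ᵥ y (T.i (T.u g v))) -
        bil b (x g) (B g *ᵥ y (T.s (g⁻¹ • v)))
      have hyu : Continuous fun g => y (T.i (T.u g v)) :=
        hy1.1.comp (continuous_subtype_val.comp (cont_u hNo v))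
      have hys : Continuous fun g => y (T.s (g⁻¹ • v)) := cont_smul hNo v (fun q => y (T.s q))
      unfold bil
      refine Continuous.sub ?_ ?_
      · exact Continuous.dotProduct continuous_const (Continuous.matrix_mulVec continuous_const
          (Continuous.matrix_mulVec continuous_const hyu))
      · exact Continuous.dotProduct hx1.1 (Continuous.matrix_mulVec continuous_const
          (Continuous.matrix_mulVec hB.cont hys))
  · have h3 := h1 s t
    rw [hFw', h2] at h3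
    simp only [d1, π] at h3
    rw [nsmul_eq_mul] at h3
    have h4 : (Fintype.card (D ⧸ N) : E) * F s t =
        (cor1 T π w s - ∑ v, zet T F v s) + toE E (χ s) * (cor1 T π w t - ∑ v, zet T F v t) -
          (cor1 T π w (s * t) - ∑ v, zet T F v (s * t)) := by
      linear_combination -h3
    show bil b (x s) (B s *ᵥ y t) = _
    have h5 : F s t = (Fintype.card (D ⧸ N) : E)⁻¹ * ((Fintype.card (D ⧸ N) : E) * F s t) := by
      rw [← mul_assoc, inv_mul_cancel₀ hk, one_mul]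
    show F s t = _
    rw [h5, h4]
    ring

end Pool.Agent.Work.MP_787500_nt.LB
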