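import Mathlib
import Pool.Agent.Work.MP_787500_nt.LB.Perp

/-!
The annihilator of the cocycles whose restriction to the inertia group is a coboundary: the converse.
-/

set_option autoImplicit false
set_option linter.unusedSectionVars false

namespace Pool.Agent.Work.MP_787500_nt.LB

open Matrix
open Pool.Agent.Work.MP_787500_nt.PA (toE)
open Pool.Agent.Work.MP_787500_nt.GP
open Pool.Agent.Work.MP_787500_nt.Gn (GoodG)
open Pool.Agent.Work.MP_787500_nt.KR (Tra traQ repQ cor1 cor2 zet traQ_s traQ_i traQ_u)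
open Pool.Agent.Work.MP_787500_nt.HP (f_perp f_inertia be_iff_iota)

section abs

variable {D : Type*} [Group D] {E : Type*} [NormedField E] [NormedAlgebra ℚ_[2] E]

/-- `toE` of a number divisible by a large power of 2 is small -/
theorem toE_small {x : ℤ_[2]} {m : ℕ} (h : (2 : ℤ_[2]) ^ m ∣ x) : ‖toE E x‖ ≤ (1 / 2 : ℝ) ^ m := by
  have h1 : ‖toE E x‖ = ‖x‖ := by
    show ‖algebraMap ℚ_[2] E (x : ℚ_[2])‖ = _
    rw [norm_algebraMap']
    rfl
  rw [h1]
  have h6 := (PadicInt.norm_le_pow_iff_mem_span_pow x m).2 (by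
    rw [Ideal.mem_span_singleton]
    exact_mod_cast h)
  rw [_root_.zpow_neg, zpow_natCast, ← inv_pow] at h6
  rw [one_div]
  exact_mod_cast h6

theorem F0_ZE {S : PA.TwoSys D} {χ a : D → ℤ_[2]} (hχ : PA.IsChar S χ) (hc1 : PA.C1 S a)
    (hcoc : ∀ g h, a (g * h) = a g + χ g * a h) {lam : ℤ_[2] → ℤ_[2]} (hlam : IsLam lam) :
    PA.ZE S χ (F0 E χ a lam) := by
  have hP : Pr χ a := ⟨hχ.one, hχ.mul, hχ.odd, hcoc⟩
  refine ⟨fun ε hε => ?_, fun g h k => F0_coc hP hlam g h k⟩
  obtain ⟨m, hm⟩ := exists_pow_lt_of_lt_one hε (show (1 / 2 : ℝ) < 1 by norm_num)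
  obtain ⟨W₁, hW₁, h1⟩ := hc1 m
  obtain ⟨W₂, hW₂, h2⟩ := hχ.cont (m + 2)
  refine ⟨W₁ ⊓ W₂, S.inf hW₁ hW₂, fun g h w hw w' hw' => ?_⟩
  have h3 := h1 g w hw.1
  have h4 := h2 1 w' hw'.2
  rw [one_mul, hχ.one] at h4
  have h5 : (2 : ℤ_[2]) ^ m ∣ lam (χ w') := (hlam.dvd _ (unit_of_odd (hχ.odd _)) m).2 (Or.inl h4)
  have h6 : lam (χ (h * w')) = lam (χ h) + lam (χ w') := by
    rw [hχ.mul, hlam.mul _ _ (unit_of_odd (hχ.odd _)) (unit_of_odd (hχ.odd _))]
  have h7 : F0 E χ a lam (g * w) (h * w') - F0 E χ a lam g h =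
      toE E ((a (g * w) - a g) * lam (χ (h * w')) + a g * lam (χ w')) := by
    unfold F0
    rw [h6]
    simp only [← toEh_apply, ← map_sub]
    congr 1
    ring
  rw [h7]
  exact (toE_small (dvd_add (h3.mul_right _) (h5.mul_left _))).trans_lt hm

theorem F0_iota {χ a : D → ℤ_[2]} {σ τ : D} {q : ℕ} {S : PA.TwoSys D} (h : TameD S χ a σ τ q)
    {lam : ℤ_[2] → ℤ_[2]} (hlam : IsLam lam) : iota σ τ q (F0 E χ a lam) ≠ 0 := by
  have h1 : iota σ τ q (F0 E χ a lam) = toE E (iota σ τ q fun g h => a g * lam (χ h)) := by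
    unfold iota F0
    simp only [← toEh_apply, map_sub, map_sum]
  rw [h1, iota_cup h.coc (fun g g' => by
    rw [h.char.mul, hlam.mul _ _ (unit_of_odd (h.char.odd _)) (unit_of_odd (h.char.odd _))]) h.τχ
    (by rw [h.τχ, lam_zero hlam]), h.τa, h.σχ, mul_one]
  intro h0
  have h2 := toE_inj h0
  rw [neg_eq_zero, mul_eq_zero] at h2
  rcases h2 with h2 | h2
  · have : (q : ℤ_[2]) ≠ 0 := by
      have := h.lt
      exact_mod_cast (show q ≠ 0 by omega)
    exact this h2
  · exact lam_ne hlam h.odd h.lt h2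

theorem ZE_sub {S : PA.TwoSys D} {χ : D → ℤ_[2]} {f f' : D → D → E} (hf : PA.ZE S χ f)
    (hf' : PA.ZE S χ f') (e : E) : PA.ZE S χ (fun s t => f s t - e * f' s t) := by
  refine ⟨fun ε hε => ?_, fun g h k => ?_⟩
  · obtain ⟨W₁, hW₁, h1⟩ := hf.1 (ε / 2) (by positivity)
    obtain ⟨W₂, hW₂, h2⟩ := hf'.1 (ε / 2 / (‖e‖ + 1)) (by positivity)
    refine ⟨W₁ ⊓ W₂, S.inf hW₁ hW₂, fun g h w hw w' hw' => ?_⟩
    have h3 := h1 g h w hw.1 w' hw'.1
    have h4 := h2 g h w hw.2 w' hw'.2
    have e1 : f (g * w) (h * w') - e * f' (g * w) (h * w') - (f g h - e * f' g h) =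
        (f (g * w) (h * w') - f g h) - e * (f' (g * w) (h * w') - f' g h) := by ring
    show ‖f (g * w) (h * w') - e * f' (g * w) (h * w') - (f g h - e * f' g h)‖ < ε
    rw [e1]
    refine (norm_sub_le _ _).trans_lt ?_
    rw [norm_mul]
    have h5 : ‖e‖ * ‖f' (g * w) (h * w') - f' g h‖ ≤ ‖e‖ * (ε / 2 / (‖e‖ + 1)) :=
      mul_le_mul_of_nonneg_left h4.le (norm_nonneg e)
    have h6 : ‖e‖ * (ε / 2 / (‖e‖ + 1)) ≤ ε / 2 := by
      rw [mul_div_assoc', div_le_iff₀ (by positivity)]
      have := norm_nonneg e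
      nlinarith
    linarith
  · have h1 := hf.2 g h k
    have h2 := hf'.2 g h k
    show f g h - e * f' g h + (f (g * h) k - e * f' (g * h) k) =
      toE E (χ g) * (f h k - e * f' h k) + (f g (h * k) - e * f' g (h * k))
    linear_combination h1 - e * h2

end abs

variable {D : Type*} [Group D] [TopologicalSpace D] [IsTopologicalGroup D] [CompactSpace D]
  {χ a : D → ℤ_[2]} {σ τ : D} {l : ℕ} {I : Subgroup D}
  {E : Type*} [NormedField E] [NormedAlgebra ℚ_[2] E] [FiniteDimensional ℚ_[2] E] {n : ℕ}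
  {A B : D → Matrix (Fin n) (Fin n) E}

/-- a cocycle which is the coboundary of a continuous function is the coboundary of a function that is
uniformly continuous for the system -/
theorem be_cont (hbasis : ∀ O ∈ nhds (1 : D), ∃ U : Subgroup D, IsOpen (U : Set D) ∧ (U : Set D) ⊆ O)
    {N : Subgroup D} (hNc : IsClosed (N : Set D)) {χN : N → ℤ_[2]} (hχ : PA.IsChar (subSys N) χN)
    {f : N → N → E} (hf : ∀ s, ∀ k ∈ Gn.core 2 (⊤ : Subgroup N) (∅ : Set N), f s k = 0)
    {z : N → E} (hz : Continuous z)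
    (h : ∀ s t, f s t = z s + toE E (χN s) * z t - z (s * t)) : PA.BE (subSys N) χN f := by
  have hc : CompactSpace N := isCompact_iff_compactSpace.1 hNc.isCompact
  have hS : Gn.Setup 2 (⊤ : Subgroup N) (∅ : Set N) ⊤ := HP.setup_top (HP.basis_sub hbasis)
  have hcoreχ : ∀ k ∈ Gn.core 2 (⊤ : Subgroup N) (∅ : Set N), χN k = 1 := by
    intro k hk
    rw [← sub_eq_zero]
    refine dvd_all fun m => ?_
    obtain ⟨W, hW, h1⟩ := hχ.cont m
    have h2 := h1 1 k (Gn.core_le ((HP.subSys_iff hbasis hNc W).1 hW) hk)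
    rwa [one_mul, hχ.one] at h2
  have h1E : toE E (1 : ℤ_[2]) = 1 := by simp [toE]
  have hz0 : ∀ k ∈ Gn.core 2 (⊤ : Subgroup N) (∅ : Set N), z k = 0 := fun k hk =>
    HP.amb_zero hS hz (fun s hs t ht => by
      have h1 := h s t
      rw [hf s t ht, hcoreχ s hs, h1E, one_mul] at h1
      exact (sub_eq_zero.1 h1.symm).symm) hk
  refine ⟨z, fun ε hε => ?_, ?_⟩
  · obtain ⟨W, hW, h1⟩ := HP.amb_n1 hS hz (fun d k hk => by
      have h1 := h d k
      rw [hf d k hk, hz0 k hk, mul_zero, add_zero] at h1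
      exact (sub_eq_zero.1 h1.symm).symm) ε hε
    exact ⟨W, (HP.subSys_iff hbasis hNc W).2 hW, h1⟩
  · funext s t
    exact h s t

/-- a cocycle orthogonal to the cocycles that are coboundaries on the inertia group is itself a
coboundary on the inertia group -/
theorem f_of_perp (h : TameX χ a σ τ l I)
    (hbasis : ∀ O ∈ nhds (1 : D), ∃ U : Subgroup D, IsOpen (U : Set D) ∧ (U : Set D) ⊆ O)
    {lam : ℤ_[2] → ℤ_[2]} (hlam : IsLam lam)
    {M : Subgroup D} (hM : M.Normal) (hMo : IsOpen (M : Set D)) (hA : KR.ProRep M A)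
    (hB : KR.ProRep M B) {b : Matrix (Fin n) (Fin n) E} (hb : b.det ≠ 0)
    (hdual : ∀ d x y, bil b (A d *ᵥ x) (B d *ᵥ y) = toE E (χ d) * bil b x y) {y : D → Fin n → E}
    (hy : Parity.IsPerp (fun d => toE E (χ d)) B b (fD I A : Set (D → Fin n → E)) y) :
    y ∈ fD I B := by
  obtain ⟨N, a', c, σ', τ', q, hNM, hNn, hNo, hc, hca, ⟨j, hj⟩, -, hT⟩ := h.exists_N hM hMo
  have hNc : IsClosed (N : Set D) := Subgroup.isClosed_of_isOpen N hNo
  have hfin : Finite (D ⧸ N) := Subgroup.quotient_finite_of_isOpen N hNo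
  have hft : Fintype (D ⧸ N) := Fintype.ofFinite _
  have hAN := proRep_N hNM hA
  have hBN := proRep_N hNM hB
  have hsA := HP.sub_small hbasis hNc hAN
  have hsB := HP.sub_small hbasis hNc hBN
  have hτI : (τ' : D) ∈ I := by
    rw [hj]
    exact I.pow_mem h.τI j
  have hy1 := hy.1
  have hyN : ZV (subSys N) (fun g : N => B g) (fun g : N => y g) :=
    (HP.sub_coc hbasis hNc hBN).1 ⟨hy1.1.comp continuous_subtype_val, fun s t => hy1.2 s t⟩
  have hr : LocRep (subSys N) (fun g : N => χ g) (⊤ : Submodule (OE E) (Fin n → E)) b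
      (fun g : N => A g) (fun g : N => B g) :=
    ⟨hAN.one, hAN.mul, hBN.one, hBN.mul, fun _ _ _ => trivial, fun _ _ _ => trivial, hsA.sm,
      hsB.sm, fun d => hdual d⟩
  set T := traQ N with hTdef
  let π : D → E → E := fun g m => toE E (χ g) * m
  have hπ : IsAct π := act_chi h.toPr
  let ρA : D → (Fin n → E) → (Fin n → E) := fun g m => A g *ᵥ m
  let ρB : D → (Fin n → E) → (Fin n → E) := fun g m => B g *ᵥ m
  have hρA : IsAct ρA := act_mat hA.one hA.mul
  have hρB : IsAct ρB := act_mat hB.one hB.mul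
  have key : ∃ v, y τ' = B τ' *ᵥ v - v := by
    refine (f_perp hT hsA hsB (fun d => hdual d) hb hyN).1 ?_
    rintro x' hx' ⟨v, hv⟩
    have hxI : ∀ g : N, (g : D) ∈ I → x' g = A g *ᵥ v - v := fun g hg =>
      f_inertia hT hsA hx' hv (h.Iχ g hg)
    have hx'c : Parity.IsCocycle (fun g : N => A g) x' := (HP.sub_coc hbasis hNc hAN).2 hx'
    have hX := cor_fD hNo hNn h.In hA.one hA.mul hx'c hxI
    obtain ⟨w, hw, hXy⟩ := hy.2 _ hX
    have hf' : PA.ZE (subSys N) (fun g : N => χ g)
        (cupE (fun g : N => B g) b x' (fun g : N => y g)) := cupE_ZE hr hx' hyN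
    have hFZ : PA.ZE (subSys N) (fun g : N => χ g) (F0 E (fun g : N => χ g) a' lam) :=
      F0_ZE hT.char hT.c1 hT.coc hlam
    have hF0 : iota σ' τ' q (F0 E (fun g : N => χ g) a' lam) ≠ 0 := F0_iota hT hlam
    set c₀ : E := iota σ' τ' q (cupE (fun g : N => B g) b x' (fun g : N => y g)) /
      iota σ' τ' q (F0 E (fun g : N => χ g) a' lam) with hc₀
    have hZ := ZE_sub hf' hFZ c₀
    have hι : iota σ' τ' q (fun s t => cupE (fun g : N => B g) b x' (fun g : N => y g) s t -
        c₀ * F0 E (fun g : N => χ g) a' lam s t) = 0 := by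
      have e1 : iota σ' τ' q (fun s t => cupE (fun g : N => B g) b x' (fun g : N => y g) s t -
          c₀ * F0 E (fun g : N => χ g) a' lam s t) =
          iota σ' τ' q (cupE (fun g : N => B g) b x' (fun g : N => y g)) -
            c₀ * iota σ' τ' q (F0 E (fun g : N => χ g) a' lam) := by
        unfold iota
        rw [Finset.sum_sub_distrib, ← Finset.mul_sum]
        ring
      rw [e1, hc₀, div_mul_cancel₀ _ hF0, sub_self]
    obtain ⟨w', hw', hfw⟩ := (be_iff_iota hT hZ).2 hι
    have hcE : toE E c ≠ 0 := fun h0 => hc (toE_inj h0)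
    -- the constant is 0
    have hzero : c₀ = 0 := by
      by_contra hne
      have hch := charZero_E E
      have hk : (Fintype.card (D ⧸ N) : E) ≠ 0 := by
        exact_mod_cast Fintype.card_ne_zero
      set c₁ : E := c₀ / toE E c with hc₁
      have hc₁0 : c₁ ≠ 0 := div_ne_zero hne hcE
      have hres : ∀ s t : N, F0 E χ a lam (s : D) (t : D) =
          toE E c * F0 E (fun g : N => χ g) a' lam s t := by
        intro s t
        unfold F0
        rw [← hca s]
        simp only [← toEh_apply, ← map_mul, mul_assoc]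
      have hfc : ∀ s t : N, bil b (x' s) (B s *ᵥ y t) =
          c₁ * F0 E χ a lam (s : D) (t : D) + (w' s + toE E (χ s) * w' t - w' (s * t)) := by
        intro s t
        have h1 : bil b (x' s) (B s *ᵥ y t) - c₀ * F0 E (fun g : N => χ g) a' lam s t =
            w' s + toE E (χ s) * w' t - w' (s * t) := congrFun (congrFun hfw s) t
        rw [hres, hc₁, div_mul_eq_mul_div, mul_div_assoc, mul_div_cancel_left₀ _ hcE, ← h1]
        ring
      let S₁ : D → E := fun g => ∑ v, bil b (A (repQ N v) *ᵥ x' (T.u g v))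
        (B g *ᵥ y (repQ N (g⁻¹ • v)))
      let S₂ : D → E := fun g => ∑ v, zet T (F0 E χ a lam) v g
      let S₃ : D → E := cor1 T π w'
      have hd2 : ∀ g g' k, d2 π (F0 E χ a lam) g g' k = 0 := by
        intro g g' k
        have := F0_coc (E := E) h.toPr hlam g g' k
        show toE E (χ g) * F0 E χ a lam g' k - F0 E χ a lam (g * g') k +
          F0 E χ a lam g (g' * k) - F0 E χ a lam g g' = 0
        linear_combination -this
      have heq : ∀ g h' : D, (Fintype.card (D ⧸ N) : E) * c₁ * F0 E χ a lam g h' =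
          d1 π (fun g => w g - S₁ g - c₁ * S₂ g - S₃ g) g h' := by
        intro g h'
        have h1 := KR.proj_right T (B := bilH b) hρA hρB hπ (fun g m m' => hdual g m m')
          (x := x') (fun s t => hx'.2 s t) (y := y) (fun s t => hy1.2 s t) g h'
        have h2 := KR.cor2_res T hπ hd2 g h'
        have h3 := congrFun (congrFun (KR.cor2_d1 T hπ w') g) h'
        have h4 : cor2 T π (fun s t : N => bilH b (x' s) (ρB (T.i s) (y (T.i t)))) g h' =
            c₁ * cor2 T π (fun s t : N => F0 E χ a lam (T.i s) (T.i t)) g h' +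
              cor2 T π (d1 (fun c : N => π (T.i c)) w') g h' := by
          unfold cor2
          rw [Finset.mul_sum, ← Finset.sum_add_distrib]
          refine Finset.sum_congr rfl fun v _ => ?_
          show toE E (χ (T.s v)) * bil b (x' (T.u g v)) (B (T.u g v) *ᵥ y (T.u h' (g⁻¹ • v))) =
            c₁ * (toE E (χ (T.s v)) * F0 E χ a lam (T.u g v) (T.u h' (g⁻¹ • v))) +
            toE E (χ (T.s v)) * (w' (T.u g v) + toE E (χ (T.u g v)) * w' (T.u h' (g⁻¹ • v)) -
              w' (T.u g v * T.u h' (g⁻¹ • v)))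
          rw [hfc]
          ring
        rw [h1, h2, h3] at h4
        have h5 : bilH b (cor1 T ρA x' g) (ρB g (y h')) = w g + toE E (χ g) * w h' - w (g * h') :=
          hXy g h'
        rw [h5, nsmul_eq_mul] at h4
        simp only [d1, π] at h4 ⊢
        have e1 : (∑ v, (bilH b) (ρA (T.s v) (x' (T.u g v))) (ρB g (y (T.s (g⁻¹ • v))))) = S₁ g := rfl
        have e2 : (∑ v, (bilH b) (ρA (T.s v) (x' (T.u h' v))) (ρB h' (y (T.s (h'⁻¹ • v))))) =
          S₁ h' := rfl
        have e3 : (∑ v, (bilH b) (ρA (T.s v) (x' (T.u (g * h') v)))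
          (ρB (g * h') (y (T.s ((g * h')⁻¹ • v))))) = S₁ (g * h') := rfl
        rw [e1, e2, e3] at h4
        show _ = w g - S₁ g - c₁ * S₂ g - S₃ g + toE E (χ g) * (w h' - S₁ h' - c₁ * S₂ h' - S₃ h') -
          (w (g * h') - S₁ (g * h') - c₁ * S₂ (g * h') - S₃ (g * h'))
        have e4 : (∑ v, zet T (F0 E χ a lam) v g) = S₂ g := rfl
        have e5 : (∑ v, zet T (F0 E χ a lam) v h') = S₂ h' := rfl
        have e6 : (∑ v, zet T (F0 E χ a lam) v (g * h')) = S₂ (g * h') := rfl
        rw [e4, e5, e6] at h4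
        have e7 : cor1 T (fun g m => toE E (χ g) * m) w' = S₃ := rfl
        rw [e7] at h4
        linear_combination -h4
      -- continuity
      have hS₁ : Continuous S₁ := by
        refine continuous_finsetSum _ fun v _ => ?_
        have hxu : Continuous fun g => x' (T.u g v) := hx'c.1.comp (cont_u hNo v)
        have hys : Continuous fun g => y (repQ N (g⁻¹ • v)) :=
          cont_smul hNo v (fun q => y (repQ N q))
        unfold bil
        exact Continuous.dotProduct (Continuous.matrix_mulVec continuous_const hxu)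
          (Continuous.matrix_mulVec continuous_const (Continuous.matrix_mulVec hB.cont hys))
      have hF0c : ∀ {X : Type _} [TopologicalSpace X] {p r : X → D}, Continuous p → Continuous r →
          Continuous fun x => F0 E χ a lam (p x) (r x) := by
        intro X _ p r hp hr
        exact toE_cont ((h.ac.comp hp).mul ((lam_cont hlam h.toPr h.χc).comp hr))
      have hS₂ : Continuous S₂ := by
        refine continuous_finsetSum _ fun v _ => Continuous.sub ?_ ?_
        · exact hF0c continuous_const (continuous_subtype_val.comp (cont_u hNo v))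
        · exact hF0c continuous_id (cont_smul hNo v (fun q => repQ N q))
      have hS₃ : Continuous S₃ := by
        show Continuous (cor1 T π w')
        unfold cor1
        exact continuous_finsetSum _ fun v _ =>
          continuous_const.mul ((n1_cont hbasis hNo hw').comp (cont_u hNo v))
      have hbe : PA.BE (subSys N) (fun g : N => χ g)
          (fun s t : N => toE E c * F0 E (fun g : N => χ g) a' lam s t) := by
        refine be_cont hbasis hNc hT.char (z := fun s : N =>
          ((Fintype.card (D ⧸ N) : E) * c₁)⁻¹ * (w s - S₁ s - c₁ * S₂ s - S₃ s)) ?_ ?_ ?_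
        · intro s k hk
          have hχk : χ k = 1 := by
            rw [← sub_eq_zero]
            refine dvd_all fun m => ?_
            obtain ⟨W, hW, h1⟩ := hT.char.cont m
            have h2 : (2 : ℤ_[2]) ^ m ∣ χ ((1 : N) * k : N) - χ (1 : N) :=
              h1 1 k (Gn.core_le ((HP.subSys_iff hbasis hNc W).1 hW) hk)
            rwa [one_mul, Subgroup.coe_one, h.toPr.one] at h2
          show toE E c * toE E (a' s * lam (χ k)) = 0
          rw [hχk, lam_zero hlam, mul_zero]
          simp [toE]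
        · exact continuous_const.mul ((((hw.sub hS₁).sub (continuous_const.mul hS₂)).sub hS₃).comp
            continuous_subtype_val)
        · intro s t
          show toE E c * F0 E (fun g : N => χ g) a' lam s t = _
          rw [← hres]
          have h1 := heq s t
          simp only [d1, π] at h1
          have h2 : (Fintype.card (D ⧸ N) : E) * c₁ ≠ 0 := mul_ne_zero hk hc₁0
          have h3 : F0 E χ a lam (s : D) (t : D) = ((Fintype.card (D ⧸ N) : E) * c₁)⁻¹ *
              ((Fintype.card (D ⧸ N) : E) * c₁ * F0 E χ a lam (s : D) (t : D)) := by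
            rw [← mul_assoc, inv_mul_cancel₀ h2, one_mul]
          rw [h3, h1]
          show _ = ((Fintype.card (D ⧸ N) : E) * c₁)⁻¹ * (w s - S₁ s - c₁ * S₂ s - S₃ s) +
            toE E (χ s) * (((Fintype.card (D ⧸ N) : E) * c₁)⁻¹ *
              (w t - S₁ t - c₁ * S₂ t - S₃ t)) -
            ((Fintype.card (D ⧸ N) : E) * c₁)⁻¹ *
              (w ((s : D) * t) - S₁ ((s : D) * t) - c₁ * S₂ ((s : D) * t) - S₃ ((s : D) * t))
          ring
      have hZ0 : PA.ZE (subSys N) (fun g : N => χ g)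
          (fun s t : N => toE E c * F0 E (fun g : N => χ g) a' lam s t) := by
        have h0 : PA.ZE (subSys N) (fun g : N => χ g) (fun _ _ : N => (0 : E)) := by
          refine ⟨fun ε hε => ?_, fun g g' k => by ring⟩
          obtain ⟨W, hW⟩ := (subSys N).ex
          exact ⟨W, hW, fun g g' w _ w' _ => by rw [sub_zero, norm_zero]; exact hε⟩
        have h1 := ZE_sub h0 hFZ (-(toE E c))
        have e1 : (fun s t : N => (0 : E) - -(toE E c) * F0 E (fun g : N => χ g) a' lam s t) =
            fun s t : N => toE E c * F0 E (fun g : N => χ g) a' lam s t := by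
          funext s t
          ring
        rwa [e1] at h1
      have h6 := (be_iff_iota hT hZ0).1 hbe
      have h7 : iota σ' τ' q (fun s t : N => toE E c * F0 E (fun g : N => χ g) a' lam s t) =
          toE E c * iota σ' τ' q (F0 E (fun g : N => χ g) a' lam) := by
        unfold iota
        rw [← Finset.mul_sum]
        ring
      rw [h7] at h6
      exact mul_ne_zero hcE hF0 h6
    refine ⟨w', hw', ?_⟩
    rw [← hfw, hzero]
    funext s t
    rw [zero_mul, sub_zero]
  obtain ⟨v, hv⟩ := key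
  refine ⟨hy1, ?_⟩
  refine cob_of_index (N := N) hB.one hB.mul hy1.2 (w := v) ?_
  rintro g ⟨hgI, hgN⟩
  exact f_inertia hT hsB hyN hv (g := ⟨g, hgN⟩) (h.Iχ g hgI)

/-- the annihilator of the cocycles whose restriction to the inertia group is a coboundary -/
theorem perp_fD (h : TameX χ a σ τ l I)
    (hbasis : ∀ O ∈ nhds (1 : D), ∃ U : Subgroup D, IsOpen (U : Set D) ∧ (U : Set D) ⊆ O)
    {lam : ℤ_[2] → ℤ_[2]} (hlam : IsLam lam)
    {M : Subgroup D} (hM : M.Normal) (hMo : IsOpen (M : Set D)) (hA : KR.ProRep M A)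
    (hB : KR.ProRep M B) {b : Matrix (Fin n) (Fin n) E} (hb : b.det ≠ 0)
    (hdual : ∀ d x y, bil b (A d *ᵥ x) (B d *ᵥ y) = toE E (χ d) * bil b x y) {y : D → Fin n → E} :
    Parity.IsPerp (fun d => toE E (χ d)) B b (fD I A : Set (D → Fin n → E)) y ↔ y ∈ fD I B :=
  ⟨f_of_perp h hbasis hlam hM hMo hA hB hb hdual, perp_of_f h hbasis hM hMo hA hB hb hdual⟩

end Pool.Agent.Work.MP_787500_nt.LB
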