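import Mathlib
import Pool.Agent.Work.MP_787500_nt.LB.Perp2

/-!
The space of continuous cocycles whose restriction to the inertia group is a coboundary has dimension `n`.
-/

set_option autoImplicit false
set_option linter.unusedSectionVars false

namespace Pool.Agent.Work.MP_787500_nt.LB

open Matrix
open Pool.Agent.Work.MP_787500_nt.PA (toE)
open Pool.Agent.Work.MP_787500_nt.GP
open Pool.Agent.Work.MP_787500_nt.Gn (GoodG)

section abs

variable {E : Type*} [NormedField E] [NormedAlgebra ℚ_[2] E] {n : ℕ}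

/-- `(1 + N) ^ s w`, for `N ^ m w = 0` -/
noncomputable def pz (m : ℕ) (N : Matrix (Fin n) (Fin n) E) (w : Fin n → E) (s : ℤ_[2]) :
    Fin n → E := ∑ k ∈ Finset.range m, toE E (Ring.choose s k) • (N ^ k *ᵥ w)

/-- the sum of `(1 + N) ^ t v` over `t < s`, for `N ^ m v = 0` -/
noncomputable def fz (m : ℕ) (N : Matrix (Fin n) (Fin n) E) (v : Fin n → E) (s : ℤ_[2]) :
    Fin n → E := ∑ k ∈ Finset.range m, toE E (Ring.choose s (k + 1)) • (N ^ k *ᵥ v)

theorem toE_choose (i k : ℕ) : toE E (Ring.choose (i : ℤ_[2]) k) = (Nat.choose i k : E) := by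
  rw [Ring.choose_natCast, ← toEh_apply, map_natCast]

theorem fz_zero (m : ℕ) (N : Matrix (Fin n) (Fin n) E) (v : Fin n → E) :
    fz m N v ((0 : ℕ) : ℤ_[2]) = 0 := by
  unfold fz
  refine Finset.sum_eq_zero fun k _ => ?_
  rw [toE_choose, Nat.choose_zero_succ, Nat.cast_zero, zero_smul]

theorem fz_succ (m : ℕ) (N : Matrix (Fin n) (Fin n) E) (v : Fin n → E) (i : ℕ) :
    fz m N v ((i + 1 : ℕ) : ℤ_[2]) = fz m N v (i : ℤ_[2]) + pz m N v (i : ℤ_[2]) := by
  unfold fz pz
  rw [← Finset.sum_add_distrib]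
  refine Finset.sum_congr rfl fun k _ => ?_
  rw [toE_choose, toE_choose, toE_choose, Nat.choose_succ_succ, Nat.cast_add, add_smul, add_comm]

theorem pz_nat {m : ℕ} {N : Matrix (Fin n) (Fin n) E} {w : Fin n → E} (h : N ^ m *ᵥ w = 0) (i : ℕ) :
    pz m N w (i : ℤ_[2]) = (1 + N) ^ i *ᵥ w := by
  cases m with
  | zero =>
    rw [pow_zero, one_mulVec] at h
    rw [h, mulVec_zero]
    rfl
  | succ m =>
    induction i with
    | zero =>
      unfold pz
      rw [Finset.sum_eq_single 0]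
      · rw [toE_choose, Nat.choose_zero_right, pow_zero, pow_zero, Nat.cast_one, one_smul]
      · intro k _ hk
        obtain ⟨k', rfl⟩ := Nat.exists_eq_succ_of_ne_zero hk
        rw [toE_choose, Nat.choose_zero_succ, Nat.cast_zero, zero_smul]
      · intro h0
        exact absurd (Finset.mem_range.2 (Nat.succ_pos m)) h0
    | succ i ih =>
      have h1 : pz (m + 1) N w ((i + 1 : ℕ) : ℤ_[2]) =
          ∑ k ∈ Finset.range m, (Nat.choose i k : E) • (N ^ (k + 1) *ᵥ w) +
            pz (m + 1) N w (i : ℤ_[2]) := by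
        unfold pz
        rw [Finset.sum_range_succ', Finset.sum_range_succ' (n := m), ← add_assoc,
          ← Finset.sum_add_distrib]
        congr 1
        · refine Finset.sum_congr rfl fun k _ => ?_
          rw [toE_choose, toE_choose, Nat.choose_succ_succ, Nat.cast_add, add_smul]
        · rw [toE_choose, toE_choose, Nat.choose_zero_right, Nat.choose_zero_right]
      have h2 : N *ᵥ pz (m + 1) N w (i : ℤ_[2]) =
          ∑ k ∈ Finset.range m, (Nat.choose i k : E) • (N ^ (k + 1) *ᵥ w) := by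
        unfold pz
        rw [Matrix.mulVec_sum, Finset.sum_range_succ]
        have e1 : N *ᵥ (toE E (Ring.choose (i : ℤ_[2]) m) • (N ^ m *ᵥ w)) = 0 := by
          rw [mulVec_smul, mulVec_mulVec, ← pow_succ', h, smul_zero]
        rw [e1, add_zero]
        refine Finset.sum_congr rfl fun k _ => ?_
        rw [mulVec_smul, mulVec_mulVec, ← pow_succ', toE_choose]
      rw [h1, ← h2, ih, pow_succ', ← mulVec_mulVec, add_mulVec, one_mulVec, add_comm]

theorem fz_add {m : ℕ} {N : Matrix (Fin n) (Fin n) E} {v : Fin n → E} (h : N ^ m *ᵥ v = 0)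
    (i j : ℕ) : fz m N v ((i + j : ℕ) : ℤ_[2]) =
      fz m N v (i : ℤ_[2]) + (1 + N) ^ i *ᵥ fz m N v (j : ℤ_[2]) := by
  induction j with
  | zero =>
    rw [fz_zero, mulVec_zero, add_zero, add_zero]
  | succ j ih =>
    rw [← add_assoc, fz_succ, ih, fz_succ, pz_nat h, pz_nat h, mulVec_add, mulVec_mulVec, ← pow_add,
      add_assoc]

theorem fz_one {m : ℕ} {N : Matrix (Fin n) (Fin n) E} {v : Fin n → E} (h : N ^ m *ᵥ v = 0) :
    fz m N v (1 : ℤ_[2]) = v := by
  have h1 := fz_succ m N v 0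
  rw [fz_zero, pz_nat h, zero_add, pow_zero, one_mulVec, zero_add, Nat.cast_one] at h1
  exact h1

theorem fz_cont (m : ℕ) (N : Matrix (Fin n) (Fin n) E) (v : Fin n → E) : Continuous (fz m N v) := by
  exact continuous_finsetSum _ fun k _ =>
    (toE_cont (E := E) (PadicInt.continuous_choose (k + 1))).smul continuous_const

theorem pz_cont (m : ℕ) (N : Matrix (Fin n) (Fin n) E) (w : Fin n → E) : Continuous (pz m N w) := by
  exact continuous_finsetSum _ fun k _ =>
    (toE_cont (E := E) (PadicInt.continuous_choose k)).smul continuous_const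

end abs

variable {D : Type*} [Group D] [TopologicalSpace D] [IsTopologicalGroup D] [CompactSpace D]
  {χ a : D → ℤ_[2]} {σ τ : D} {l : ℕ} {I : Subgroup D}
  {E : Type*} [NormedField E] [NormedAlgebra ℚ_[2] E] [FiniteDimensional ℚ_[2] E] {n : ℕ}
  {A : D → Matrix (Fin n) (Fin n) E}

/-- the unramified 2-adic character -/
theorem exists_s (h : TameX χ a σ τ l I) {lam : ℤ_[2] → ℤ_[2]} (hlam : IsLam lam) :
    ∃ s : D → ℤ_[2], Continuous s ∧ s σ = 1 ∧ (∀ g g', s (g * g') = s g + s g') ∧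
      ∀ g ∈ I, s g = 0 := by
  set c : ℤ_[2] := lam (l : ℤ_[2]) with hc
  have hc0 : c ≠ 0 := lam_ne hlam h.lodd h.lt
  have hlu : IsUnit (l : ℤ_[2]) := by
    have := unit_of_odd (h.odd σ)
    rwa [h.σχ] at this
  have hpow : ∀ i : ℕ, lam ((l : ℤ_[2]) ^ i) = i * c := by
    intro i
    induction i with
    | zero => rw [pow_zero, lam_zero hlam, Nat.cast_zero, zero_mul]
    | succ i ih =>
      rw [pow_succ, hlam.mul _ _ (hlu.pow i) hlu, ih]
      push_cast
      ring
  -- divisibility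
  have hdiv : ∀ g, c ∣ lam (χ g) := by
    intro g
    obtain ⟨w, hw⟩ : ∃ w : ℕ, c ∣ 2 ^ w := by
      obtain ⟨u, hu⟩ : ∃ u : ℤ_[2]ˣ, c = u * (2 : ℤ_[2]) ^ c.valuation :=
        ⟨_, PadicInt.unitCoeff_spec hc0⟩
      refine ⟨c.valuation, (u⁻¹ : ℤ_[2]ˣ), ?_⟩
      have h2 := Units.mul_inv u
      have h3 : c * (u⁻¹ : ℤ_[2]ˣ) = (u * (2 : ℤ_[2]) ^ c.valuation) * (u⁻¹ : ℤ_[2]ˣ) := by
        rw [← hu]
      rw [h3]
      linear_combination (-(2 : ℤ_[2]) ^ c.valuation) * h2
    obtain ⟨i, hi⟩ := h.dens g (w + 2)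
    -- `χ g = l ^ i * u` with `u` close to 1
    obtain ⟨u, hu⟩ := hlu.pow i
    have hg : χ g = (l : ℤ_[2]) ^ i * ((u⁻¹ : ℤ_[2]ˣ) * χ g) := by
      rw [← hu, ← mul_assoc, Units.mul_inv, one_mul]
    have h1 : (2 : ℤ_[2]) ^ (w + 2) ∣ ((u⁻¹ : ℤ_[2]ˣ) : ℤ_[2]) * χ g - 1 := by
      have h2 : ((u⁻¹ : ℤ_[2]ˣ) : ℤ_[2]) * χ g - 1 = (u⁻¹ : ℤ_[2]ˣ) * (χ g - (l : ℤ_[2]) ^ i) := by
        rw [mul_sub, ← hu, Units.inv_mul]
      rw [h2]
      exact hi.mul_left _
    have hu1 : IsUnit (((u⁻¹ : ℤ_[2]ˣ) : ℤ_[2]) * χ g) :=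
      (Units.isUnit _).mul (unit_of_odd (h.odd g))
    have h3 : (2 : ℤ_[2]) ^ w ∣ lam (((u⁻¹ : ℤ_[2]ˣ) : ℤ_[2]) * χ g) :=
      (hlam.dvd _ hu1 w).2 (Or.inl h1)
    rw [hg, hlam.mul _ _ (hlu.pow i) hu1, hpow]
    exact dvd_add (dvd_mul_left _ _) (hw.trans h3)
  choose s hs using hdiv
  refine ⟨s, ?_, ?_, fun g g' => ?_, fun g hg => ?_⟩
  · have h1 : Continuous (fun g => ((s g : ℤ_[2]) : ℚ_[2])) := by
      have h2 : (fun g => ((s g : ℤ_[2]) : ℚ_[2])) =
          fun g => (c : ℚ_[2])⁻¹ * ((lam (χ g) : ℤ_[2]) : ℚ_[2]) := by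
        funext g
        have hc0' : (c : ℚ_[2]) ≠ 0 := fun h0 => hc0 (Subtype.ext h0)
        rw [eq_inv_mul_iff_mul_eq₀ hc0', hs g]
        push_cast
        ring
      rw [h2]
      exact continuous_const.mul (continuous_subtype_val.comp (lam_cont hlam h.toPr h.χc))
    exact Continuous.subtype_mk h1 _
  · apply mul_left_cancel₀ hc0
    rw [← hs, h.σχ, mul_one]
  · apply mul_left_cancel₀ hc0
    rw [mul_add, ← hs, ← hs, ← hs, h.mul, hlam.mul _ _ (unit_of_odd (h.odd _)) (unit_of_odd (h.odd _))]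
  · apply mul_left_cancel₀ hc0
    rw [← hs, h.Iχ g hg, lam_zero hlam, mul_zero]

/-- powers of the Frobenius element times inertia are dense -/
theorem dense_frob (h : TameX χ a σ τ l I)
    (hbasis : ∀ O ∈ nhds (1 : D), ∃ U : Subgroup D, IsOpen (U : Set D) ∧ (U : Set D) ⊆ O) :
    Dense {g : D | ∃ i : ℕ, ∃ k ∈ I, g = σ ^ i * k} := by
  intro g
  rw [mem_closure_iff_nhds]
  intro O hO
  have h1 : (fun x : D => g * x) ⁻¹' O ∈ nhds (1 : D) := by
    refine (continuous_const.mul continuous_id).continuousAt.preimage_mem_nhds ?_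
    show O ∈ nhds (g * 1)
    rwa [mul_one]
  obtain ⟨U, hU, hUO⟩ := hbasis _ h1
  obtain ⟨i, k, hk, hi⟩ := h.frob g U.normalCore inferInstance (core_open hU)
  refine ⟨σ ^ i * k, ?_, i, k, hk, rfl⟩
  have h2 : ((σ ^ i * k)⁻¹ * g)⁻¹ ∈ U := U.inv_mem (U.normalCore_le hi)
  have h3 := hUO h2
  have h4 : g * ((σ ^ i * k)⁻¹ * g)⁻¹ = σ ^ i * k := by group
  have h5 : g * ((σ ^ i * k)⁻¹ * g)⁻¹ ∈ O := h3
  rwa [h4] at h5

/-- the vectors fixed by `I` -/
def fixI (I : Subgroup D) (A : D → Matrix (Fin n) (Fin n) E) : Submodule E (Fin n → E) where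
  carrier := {v | ∀ g ∈ I, A g *ᵥ v = v}
  add_mem' := fun hv hw g hg => by rw [mulVec_add, hv g hg, hw g hg]
  zero_mem' := fun g _ => mulVec_zero _
  smul_mem' := fun c v hv g hg => by rw [mulVec_smul, hv g hg]

/-- the continuous cocycles that vanish on `I` -/
def cocI (I : Subgroup D) (A : D → Matrix (Fin n) (Fin n) E) : Submodule E (D → Fin n → E) where
  carrier := {x | Parity.IsCocycle A x ∧ ∀ g ∈ I, x g = 0}
  add_mem' := fun hx hy => ⟨hx.1.add hy.1, fun g hg => by
    rw [Pi.add_apply, hx.2 g hg, hy.2 g hg, add_zero]⟩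
  zero_mem' := ⟨Parity.IsCocycle.zero A, fun _ _ => rfl⟩
  smul_mem' := fun c x hx => ⟨hx.1.smul c, fun g hg => by rw [Pi.smul_apply, hx.2 g hg, smul_zero]⟩

section

variable (h1 : A 1 = 1) (hm : ∀ s t, A (s * t) = A s * A t)

include h1 hm

theorem pow_A (i : ℕ) : A (σ ^ i) = A σ ^ i := by
  induction i with
  | zero => rw [pow_zero, pow_zero, h1]
  | succ i ih => rw [pow_succ, pow_succ, hm, ih]

theorem fix_sigma (hI : I.Normal) (g : D) {v : Fin n → E} (hv : v ∈ fixI I A) :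
    A g *ᵥ v ∈ fixI I A := by
  intro k hk
  have h2 : g⁻¹ * k * g ∈ I := by
    have := hI.conj_mem k hk g⁻¹
    rwa [inv_inv] at this
  have h3 := hv _ h2
  calc A k *ᵥ (A g *ᵥ v) = A g *ᵥ (A (g⁻¹ * k * g) *ᵥ v) := by
        rw [mulVec_mulVec, mulVec_mulVec, ← hm, ← hm]
        congr 2
        group
    _ = _ := by rw [h3]

/-- the action of `D` on the part of the vectors fixed by inertia on which Frobenius is unipotent -/
theorem act_pz (hc : Continuous A) (h : TameX χ a σ τ l I)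
    (hbasis : ∀ O ∈ nhds (1 : D), ∃ U : Subgroup D, IsOpen (U : Set D) ∧ (U : Set D) ⊆ O)
    {s : D → ℤ_[2]} (hs : Continuous s) (hsσ : s σ = 1) (hsm : ∀ g g', s (g * g') = s g + s g')
    (hsI : ∀ g ∈ I, s g = 0) {m : ℕ} {w : Fin n → E} (hw : w ∈ fixI I A)
    (hwm : (A σ - 1) ^ m *ᵥ w = 0) (g : D) : A g *ᵥ w = pz m (A σ - 1) w (s g) := by
  have hspow : ∀ i : ℕ, s (σ ^ i) = i := by
    intro i
    induction i with
    | zero =>
      have := hsm 1 1
      rw [mul_one] at this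
      rw [pow_zero, Nat.cast_zero]
      exact left_eq_add.1 this
    | succ i ih =>
      rw [pow_succ, hsm, ih, hsσ]
      push_cast
      rfl
  have h3 : (fun g => A g *ᵥ w) = fun g => pz m (A σ - 1) w (s g) := by
    refine Continuous.ext_on (dense_frob h hbasis) (hc.matrix_mulVec continuous_const)
      ((pz_cont m _ w).comp hs) ?_
    rintro _ ⟨i, k, hk, rfl⟩
    show A (σ ^ i * k) *ᵥ w = pz m (A σ - 1) w (s (σ ^ i * k))
    rw [hsm, hsI k hk, add_zero, hspow, pz_nat hwm, hm, ← mulVec_mulVec, hw k hk, pow_A h1 hm,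
      add_sub_cancel]
  exact congrFun h3 g

/-- unramified cocycles with a given value at the Frobenius element, unipotent case -/
theorem ur_uni (hc : Continuous A) (h : TameX χ a σ τ l I)
    (hbasis : ∀ O ∈ nhds (1 : D), ∃ U : Subgroup D, IsOpen (U : Set D) ∧ (U : Set D) ⊆ O)
    {lam : ℤ_[2] → ℤ_[2]} (hlam : IsLam lam) {m : ℕ} {v : Fin n → E} (hv : v ∈ fixI I A)
    (hvm : (A σ - 1) ^ m *ᵥ v = 0) : ∃ x ∈ cocI I A, x σ = v := by
  obtain ⟨s, hs, hsσ, hsm, hsI⟩ := exists_s h hlam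
  set N := A σ - 1 with hN
  have hspow : ∀ i : ℕ, s (σ ^ i) = i := by
    intro i
    induction i with
    | zero =>
      have := hsm 1 1
      rw [mul_one] at this
      rw [pow_zero, Nat.cast_zero]
      exact left_eq_add.1 this
    | succ i ih =>
      rw [pow_succ, hsm, ih, hsσ]
      push_cast
      rfl
  have hN1 : 1 + N = A σ := by rw [hN, add_sub_cancel]
  have hfix : ∀ k : ℕ, N ^ k *ᵥ v ∈ fixI I A := by
    intro k
    induction k with
    | zero => rwa [pow_zero, one_mulVec]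
    | succ k ih =>
      rw [pow_succ', ← mulVec_mulVec, hN, sub_mulVec, one_mulVec]
      exact (fixI I A).sub_mem (fix_sigma h1 hm h.In σ ih) ih
  have hfzfix : ∀ t : ℤ_[2], fz m N v t ∈ fixI I A := fun t =>
    (fixI I A).sum_mem fun k _ => (fixI I A).smul_mem _ (hfix k)
  have hxc : Continuous fun g => fz m N v (s g) := (fz_cont m N v).comp hs
  refine ⟨fun g => fz m N v (s g), ⟨⟨hxc, ?_⟩, fun g hg => ?_⟩, ?_⟩
  · -- cocycle relation, by density
    have hdd := (dense_frob h hbasis).prod (dense_frob h hbasis)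
    have h3 : (fun p : D × D => fz m N v (s (p.1 * p.2))) =
        fun p : D × D => fz m N v (s p.1) + A p.1 *ᵥ fz m N v (s p.2) := by
      refine Continuous.ext_on hdd (hxc.comp continuous_mul) ?_ ?_
      · exact (hxc.comp continuous_fst).add
          ((hc.comp continuous_fst).matrix_mulVec (hxc.comp continuous_snd))
      · rintro ⟨_, _⟩ ⟨⟨i, k, hk, rfl⟩, ⟨j, k', hk', rfl⟩⟩
        show fz m N v (s (σ ^ i * k * (σ ^ j * k'))) =
          fz m N v (s (σ ^ i * k)) + A (σ ^ i * k) *ᵥ fz m N v (s (σ ^ j * k'))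
        have e1 : s (σ ^ i * k * (σ ^ j * k')) = ((i + j : ℕ) : ℤ_[2]) := by
          rw [hsm, hsm, hsm, hsI k hk, hsI k' hk', hspow, hspow]
          push_cast
          ring
        have e2 : s (σ ^ i * k) = (i : ℤ_[2]) := by rw [hsm, hsI k hk, hspow, add_zero]
        have e3 : s (σ ^ j * k') = (j : ℤ_[2]) := by rw [hsm, hsI k' hk', hspow, add_zero]
        rw [e1, e2, e3, fz_add hvm, hN1, hm, ← mulVec_mulVec, hfzfix _ k hk, pow_A h1 hm]
    exact fun g g' => congrFun h3 (g, g')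
  · show fz m N v (s g) = 0
    rw [hsI g hg]
    exact_mod_cast fz_zero m N v
  · show fz m N v (s σ) = v
    rw [hsσ, fz_one hvm]

/-- unramified cocycles with a given value at the Frobenius element -/
theorem ur_all (hc : Continuous A) (h : TameX χ a σ τ l I)
    (hbasis : ∀ O ∈ nhds (1 : D), ∃ U : Subgroup D, IsOpen (U : Set D) ∧ (U : Set D) ⊆ O)
    {lam : ℤ_[2] → ℤ_[2]} (hlam : IsLam lam) {v : Fin n → E} (hv : v ∈ fixI I A) :
    ∃ x ∈ cocI I A, x σ = v := by
  let F : Module.End E (fixI I A) :=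
    { toFun := fun w => ⟨A σ *ᵥ w - w, (fixI I A).sub_mem (fix_sigma h1 hm h.In σ w.2) w.2⟩
      map_add' := fun w w' => Subtype.ext (by
        show A σ *ᵥ ((w : Fin n → E) + w') - (w + w') = (A σ *ᵥ w - w) + (A σ *ᵥ w' - w')
        rw [mulVec_add]
        abel)
      map_smul' := fun c w => Subtype.ext (by
        show A σ *ᵥ (c • (w : Fin n → E)) - c • w = c • (A σ *ᵥ w - w)
        rw [mulVec_smul, smul_sub]) }
  have hF : ∀ (k : ℕ) (w : fixI I A), (((F ^ k) w : fixI I A) : Fin n → E) = (A σ - 1) ^ k *ᵥ w := by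
    intro k
    induction k with
    | zero =>
      intro w
      rw [pow_zero, pow_zero, one_mulVec]
      rfl
    | succ k ih =>
      intro w
      rw [pow_succ', pow_succ', ← mulVec_mulVec, ← ih w, sub_mulVec, one_mulVec]
      rfl
  obtain ⟨m, hm1, hm0⟩ := ((F.eventually_isCompl_ker_pow_range_pow).and
    (Filter.eventually_gt_atTop 0)).exists
  obtain ⟨k, rfl⟩ := Nat.exists_eq_succ_of_ne_zero hm0.ne'
  obtain ⟨v₁, hv₁, v₂, hv₂, hvv⟩ := Submodule.mem_sup.1 (show (⟨v, hv⟩ : fixI I A) ∈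
    LinearMap.ker (F ^ (k + 1)) ⊔ LinearMap.range (F ^ (k + 1)) by
      rw [hm1.sup_eq_top]
      exact Submodule.mem_top)
  obtain ⟨u, hu⟩ := hv₂
  obtain ⟨x, hx, hxσ⟩ := ur_uni h1 hm hc h hbasis hlam (m := k + 1) v₁.2 (by
    rw [← hF, LinearMap.mem_ker.1 hv₁]
    rfl)
  set u' : fixI I A := (F ^ k) u with hu'
  have hu2 : (v₂ : Fin n → E) = A σ *ᵥ (u' : Fin n → E) - u' := by
    rw [← hu, pow_succ']
    rfl
  have hcob : (fun g => A g *ᵥ (u' : Fin n → E) - u') ∈ cocI I A := by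
    refine ⟨⟨(hc.matrix_mulVec continuous_const).sub continuous_const, fun g g' => ?_⟩,
      fun g hg => ?_⟩
    · show A (g * g') *ᵥ (u' : Fin n → E) - u' =
        (A g *ᵥ (u' : Fin n → E) - u') + A g *ᵥ (A g' *ᵥ (u' : Fin n → E) - u')
      rw [hm, ← mulVec_mulVec, mulVec_sub]
      abel
    · show A g *ᵥ (u' : Fin n → E) - u' = 0
      rw [u'.2 g hg, sub_self]
  refine ⟨_, (cocI I A).add_mem hx hcob, ?_⟩
  show x σ + (A σ *ᵥ (u' : Fin n → E) - u') = v
  rw [hxσ, ← hu2]
  exact congrArg Subtype.val hvv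

/-- an unramified cocycle is determined by its value at the Frobenius element -/
theorem ur_inj (hc : Continuous A) (h : TameX χ a σ τ l I)
    (hbasis : ∀ O ∈ nhds (1 : D), ∃ U : Subgroup D, IsOpen (U : Set D) ∧ (U : Set D) ⊆ O)
    {x : D → Fin n → E} (hx : x ∈ cocI I A) (hxσ : x σ = 0) : x = 0 := by
  have hx1 : x 1 = 0 := hx.2 1 I.one_mem
  refine Continuous.ext_on (dense_frob h hbasis) hx.1.1 continuous_const ?_
  rintro _ ⟨i, k, hk, rfl⟩
  have h2 : x (σ ^ i) = 0 := by
    induction i with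
    | zero => rwa [pow_zero]
    | succ i ih => rw [pow_succ, hx.1.2, ih, hxσ, mulVec_zero, add_zero]
  show x (σ ^ i * k) = 0
  rw [hx.1.2, h2, hx.2 k hk, mulVec_zero, add_zero]

end

/-- the space of cocycles that are coboundaries on the inertia group has dimension `n` -/
theorem finrank_fD (h1 : A 1 = 1) (hm : ∀ s t, A (s * t) = A s * A t) (hc : Continuous A)
    (h : TameX χ a σ τ l I)
    (hbasis : ∀ O ∈ nhds (1 : D), ∃ U : Subgroup D, IsOpen (U : Set D) ∧ (U : Set D) ⊆ O)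
    {lam : ℤ_[2] → ℤ_[2]} (hlam : IsLam lam) :
    FiniteDimensional E (fD I A) ∧ Module.finrank E (fD I A) = n := by
  have hfE : FiniteDimensional E (Fin n → E) := inferInstance
  -- evaluation at the Frobenius element
  let ev : cocI I A →ₗ[E] fixI I A :=
    { toFun := fun x => ⟨(x : D → Fin n → E) σ, fun k hk => by
        have h2 : σ⁻¹ * k * σ ∈ I := by
          have := h.In.conj_mem k hk σ⁻¹
          rwa [inv_inv] at this
        have h3 := x.2.1.2 k σ
        have h4 := x.2.1.2 σ (σ⁻¹ * k * σ)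
        have e : σ * (σ⁻¹ * k * σ) = k * σ := by group
        rw [e, x.2.2 _ h2, mulVec_zero, add_zero] at h4
        rw [x.2.2 k hk, zero_add] at h3
        rw [← h3, h4]⟩
      map_add' := fun x y => rfl
      map_smul' := fun c x => rfl }
  have hev : Function.Bijective ev := by
    constructor
    · intro x y hxy
      have h2 : (x - y : D → Fin n → E) ∈ cocI I A := (cocI I A).sub_mem x.2 y.2
      have h3 : (x - y : D → Fin n → E) σ = 0 := by
        rw [Pi.sub_apply, sub_eq_zero]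
        exact congrArg Subtype.val hxy
      exact Subtype.ext (sub_eq_zero.1 (ur_inj h1 hm hc h hbasis h2 h3))
    · intro v
      obtain ⟨x, hx, hxσ⟩ := ur_all h1 hm hc h hbasis hlam v.2
      exact ⟨⟨x, hx⟩, Subtype.ext hxσ⟩
  let e := LinearEquiv.ofBijective ev hev
  have hf0 : FiniteDimensional E (cocI I A) := LinearEquiv.finiteDimensional e.symm
  have hr0 : Module.finrank E (cocI I A) = Module.finrank E (fixI I A) := e.finrank_eq
  let Ψ : (cocI I A) × (Fin n → E) →ₗ[E] (D → Fin n → E) :=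
    { toFun := fun p => fun g => (p.1 : D → Fin n → E) g + (A g *ᵥ p.2 - p.2)
      map_add' := fun p q => by
        funext g
        show ((p.1 : D → Fin n → E) g + (q.1 : D → Fin n → E) g) + (A g *ᵥ (p.2 + q.2) - (p.2 + q.2)) =
          ((p.1 : D → Fin n → E) g + (A g *ᵥ p.2 - p.2)) + ((q.1 : D → Fin n → E) g + (A g *ᵥ q.2 - q.2))
        rw [mulVec_add]
        abel
      map_smul' := fun c p => by
        funext g
        show c • (p.1 : D → Fin n → E) g + (A g *ᵥ (c • p.2) - c • p.2) =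
          c • ((p.1 : D → Fin n → E) g + (A g *ᵥ p.2 - p.2))
        rw [mulVec_smul, smul_add, smul_sub] }
  have hΨ : ∀ p g, Ψ p g = (p.1 : D → Fin n → E) g + (A g *ᵥ p.2 - p.2) := fun p g => rfl
  have hrange : LinearMap.range Ψ = fD I A := by
    ext y
    constructor
    · rintro ⟨p, rfl⟩
      refine ⟨⟨?_, fun g g' => ?_⟩, p.2, fun g hg => ?_⟩
      · exact p.1.2.1.1.add ((hc.matrix_mulVec continuous_const).sub continuous_const)
      · rw [hΨ, hΨ, hΨ, p.1.2.1.2, hm, ← mulVec_mulVec, mulVec_add, mulVec_sub]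
        abel
      · rw [hΨ, p.1.2.2 g hg, zero_add]
    · rintro ⟨hy, v, hv⟩
      have hcob : (fun g => y g - (A g *ᵥ v - v)) ∈ cocI I A := by
        refine ⟨⟨hy.1.sub ((hc.matrix_mulVec continuous_const).sub continuous_const), fun g g' => ?_⟩,
          fun g hg => ?_⟩
        · show y (g * g') - (A (g * g') *ᵥ v - v) =
            (y g - (A g *ᵥ v - v)) + A g *ᵥ (y g' - (A g' *ᵥ v - v))
          rw [hy.2, hm, ← mulVec_mulVec, mulVec_sub, mulVec_sub]
          abel
        · show y g - (A g *ᵥ v - v) = 0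
          rw [hv g hg, sub_self]
      refine ⟨(⟨_, hcob⟩, v), ?_⟩
      funext g
      rw [hΨ]
      show y g - (A g *ᵥ v - v) + (A g *ᵥ v - v) = y g
      abel
  -- the kernel
  have hker : Module.finrank E (LinearMap.ker Ψ) = Module.finrank E (fixI I A) := by
    let ψ : LinearMap.ker Ψ →ₗ[E] fixI I A :=
      { toFun := fun p => ⟨(p : (cocI I A) × (Fin n → E)).2, fun g hg => by
          have h2 := congrFun (LinearMap.mem_ker.1 p.2) g
          rw [hΨ, (p : (cocI I A) × (Fin n → E)).1.2.2 g hg, zero_add] at h2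
          exact sub_eq_zero.1 h2⟩
        map_add' := fun p q => rfl
        map_smul' := fun c p => rfl }
    refine (LinearEquiv.ofBijective ψ ⟨?_, ?_⟩).finrank_eq
    · intro p q hpq
      have h2 : (p : (cocI I A) × (Fin n → E)).2 = (q : (cocI I A) × (Fin n → E)).2 :=
        congrArg Subtype.val hpq
      refine Subtype.ext (Prod.ext (Subtype.ext ?_) h2)
      funext g
      have h3 := congrFun (LinearMap.mem_ker.1 p.2) g
      have h4 := congrFun (LinearMap.mem_ker.1 q.2) g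
      rw [hΨ] at h3 h4
      rw [h2] at h3
      exact add_right_cancel (h3.trans h4.symm)
    · intro v
      have hcob : (fun g => -(A g *ᵥ (v : Fin n → E) - v)) ∈ cocI I A := by
        refine ⟨⟨((hc.matrix_mulVec continuous_const).sub continuous_const).neg, fun g g' => ?_⟩,
          fun g hg => ?_⟩
        · show -(A (g * g') *ᵥ (v : Fin n → E) - v) =
            -(A g *ᵥ (v : Fin n → E) - v) + A g *ᵥ (-(A g' *ᵥ (v : Fin n → E) - v))
          rw [hm, ← mulVec_mulVec, mulVec_neg, mulVec_sub]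
          abel
        · show -(A g *ᵥ (v : Fin n → E) - v) = 0
          rw [v.2 g hg, sub_self, neg_zero]
      refine ⟨⟨(⟨_, hcob⟩, (v : Fin n → E)), ?_⟩, rfl⟩
      rw [LinearMap.mem_ker]
      funext g
      rw [hΨ]
      show -(A g *ᵥ (v : Fin n → E) - v) + (A g *ᵥ (v : Fin n → E) - v) = 0
      rw [neg_add_cancel]
  have hfin : FiniteDimensional E ((cocI I A) × (Fin n → E)) := inferInstance
  have h5 := LinearMap.finrank_range_add_finrank_ker Ψ
  have h6 : FiniteDimensional E (LinearMap.range Ψ) := inferInstance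
  rw [hrange] at h5 h6
  refine ⟨h6, ?_⟩
  rw [hker, Module.finrank_prod, hr0, Module.finrank_fin_fun] at h5
  omega

end Pool.Agent.Work.MP_787500_nt.LB
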