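import Mathlib
import Pool.Agent.Work.MP_787500_nt.HP.BK
import Pool.Agent.Work.MP_787500_nt.LB.Dim
import Pool.Agent.Work.MP_787500_nt.GP.K3_Lam

/-!
The parity formula for Selmer groups with the condition of Bloch and Kato at all primes not above 2, for
representations that are pro-2 on an open normal subgroup.
-/

set_option autoImplicit false
set_option linter.unusedSectionVars false

namespace Pool.Agent.Work.MP_787500_nt.LB

open Matrix NumberField
open Pool.Agent.Work.MP_787500_nt.PA (cyc toE)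
open Pool.Agent.Work.MP_787500_nt.GP
open Pool.Agent.Work.MP_787500_nt.HP (fLoc bkL basis_K IsQ Spl IsP kap_inertia above_k two_notMem)

universe u w

section loc

variable {K : Type u} [Field K] [NumberField K] {P : Ideal (𝓞 (AlgebraicClosure K))}
  {E : Type*} [NormedField E] [NormedAlgebra ℚ_[2] E] [FiniteDimensional ℚ_[2] E] {n : ℕ}
  {a : stabD P → ℤ_[2]} {σ τ : stabD P} {l : ℕ} {A B : stabD P → Matrix (Fin n) (Fin n) E}

/-- the inertia group as a subgroup of the decomposition group -/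
noncomputable abbrev inD (P : Ideal (𝓞 (AlgebraicClosure K))) : Subgroup (stabD P) :=
  (P.inertia (AbsGal K)).subgroupOf (stabD P)

/-- `TameX` for the decomposition group of `P` -/
abbrev TX (P : Ideal (𝓞 (AlgebraicClosure K))) (l : ℕ) : Prop :=
  ∃ (a : stabD P → ℤ_[2]) (σ τ : stabD P),
    TameX (fun g : stabD P => cyc (g : AbsGal K)) a σ τ l (inD P)

theorem fLoc_eq (P : Ideal (𝓞 (AlgebraicClosure K))) (A : stabD P → Matrix (Fin n) (Fin n) E) :
    fLoc P A = fD (inD P) A := by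
  ext x
  exact Iff.rfl

theorem perp_fLoc (hX : TX P l) {M : Subgroup (stabD P)} (hM : M.Normal)
    (hMo : IsOpen (M : Set (stabD P))) (hA : KR.ProRep M A) (hB : KR.ProRep M B)
    {b : Matrix (Fin n) (Fin n) E} (hb : b.det ≠ 0)
    (hdual : ∀ d, (A d)ᵀ * b * B d = toE E (cyc (d : AbsGal K)) • b) {y : stabD P → Fin n → E} :
    Parity.IsPerp (fun d : stabD P => toE E (cyc (d : AbsGal K))) B b
      (fLoc P A : Set (stabD P → Fin n → E)) y ↔ y ∈ fLoc P B := by
  obtain ⟨a, σ, τ, h⟩ := hX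
  obtain ⟨lam, hlam⟩ := exists_lam
  have hd : ∀ d x y, bil b (A d *ᵥ x) (B d *ᵥ y) = toE E (cyc (d : AbsGal K)) * bil b x y := by
    intro d x y
    unfold bil
    rw [← vecMul_transpose, ← dotProduct_mulVec, mulVec_mulVec, mulVec_mulVec,
      hdual, smul_mulVec, dotProduct_smul, smul_eq_mul]
  have hc : CompactSpace (stabD P) := isCompact_iff_compactSpace.1 (stabD_closed P).isCompact
  rw [fLoc_eq, fLoc_eq]
  exact perp_fD h (HP.basis_sub (basis_K K)) hlam hM hMo hA hB hb hd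

theorem even_fLoc (hX : TX P l) (h1 : A 1 = 1) (hm : ∀ s t, A (s * t) = A s * A t)
    (hc : Continuous A) :
    Even (Parity.dimModulo (fLoc P A) (Parity.coboundaries A) +
      Module.finrank E (Parity.fixedBy A)) ∧ Parity.coboundaries A ≤ fLoc P A := by
  obtain ⟨a, σ, τ, h⟩ := hX
  obtain ⟨lam, hlam⟩ := exists_lam
  have hcs : CompactSpace (stabD P) := isCompact_iff_compactSpace.1 (stabD_closed P).isCompact
  obtain ⟨h3, h4⟩ := finrank_fD h1 hm hc h (HP.basis_sub (basis_K K)) hlam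
  rw [← fLoc_eq] at h3 h4
  have hle : Parity.coboundaries A ≤ fLoc P A := by
    rintro x ⟨v, hv⟩
    obtain rfl : x = fun d => A d *ᵥ v - v := funext hv
    refine ⟨⟨(Continuous.matrix_mulVec hc continuous_const).sub continuous_const, fun s t => ?_⟩,
      v, fun d _ => rfl⟩
    show A (s * t) *ᵥ v - v = (A s *ᵥ v - v) + A s *ᵥ (A t *ᵥ v - v)
    rw [hm, mulVec_sub, mulVec_mulVec]
    abel
  have h5 := dimModulo_add hle h3
  have h6 := finrank_cob A
  refine ⟨⟨Module.finrank E (Parity.fixedBy A), ?_⟩, hle⟩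
  omega

end loc

section main

variable {K : Type u} [Field K] [NumberField K] {E : Type w} [NormedField E]
  [NormedAlgebra ℚ_[2] E] [FiniteDimensional ℚ_[2] E] {n : ℕ}
  {D : ℕ} {s : K} {c : AlgebraicClosure K ≃+* AlgebraicClosure K}
  {κ : AbsGal K →* AbsGal K} {T : Finset ℕ} {P : ℕ → Ideal (𝓞 (AlgebraicClosure K))}
  {ρ : AbsGal K →* Matrix (Fin n) (Fin n) E} {b : Matrix (Fin n) (Fin n) E}
  {N : Subgroup (AbsGal K)}

private def Cnd' (κ : AbsGal K → AbsGal K) (ρ : AbsGal K → Matrix (Fin n) (Fin n) E)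
    (b : Matrix (Fin n) (Fin n) E) (x : AbsGal K → Fin n → E) (D : Subgroup (AbsGal K))
    (M : Submodule E (D → Fin n → E)) : Prop :=
  (fun σ : D => x σ) ∈ M ∧ Parity.IsPerp (fun σ : D => Parity.cyclo E (σ : AbsGal K))
    (fun σ : D => ρ (κ σ)) b (M : Set (D → Fin n → E)) (fun σ : D => x (κ σ))

theorem proRep_rho (hρ : Gn.ConjDual 2 N (inT K T) (Parity.cyclo E) κ ρ b) (C : Subgroup (AbsGal K)) :
    KR.ProRep (N.subgroupOf C) (fun d : C => ρ d) :=
  ⟨map_one ρ, fun s t => map_mul ρ _ _, hρ.cont.comp continuous_subtype_val, fun s hs => hρ.proP s hs⟩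

theorem proRep_kap (hκ : Continuous κ) (hκN : ∀ s ∈ N, κ s ∈ N)
    (hρ : Gn.ConjDual 2 N (inT K T) (Parity.cyclo E) κ ρ b) (C : Subgroup (AbsGal K)) :
    KR.ProRep (N.subgroupOf C) (fun d : C => ρ (κ d)) :=
  ⟨by
    show ρ (κ 1) = 1
    rw [map_one, map_one], fun s t => by
    show ρ (κ (s * t)) = ρ (κ s) * ρ (κ t)
    rw [map_mul, map_mul], hρ.cont.comp (hκ.comp continuous_subtype_val),
    fun s hs => by
      have h := hρ.proP (κ s) (hκN _ hs)
      refine h.congr fun k => ?_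
      show ρ (κ s ^ 2 ^ k) = ρ (κ ((s : AbsGal K) ^ 2 ^ k))
      rw [map_pow κ]⟩

theorem selBK_eq (hK : IsQ K D s) (hc : PA.IsConj s c)
    (hκ : ∀ (σ : AbsGal K) (x : AlgebraicClosure K), κ σ x = c (σ (c x)))
    (hP : IsP T P) (hTX : ∀ l ∈ T, TX (P l) l) (hN : N.Normal) (hNo : IsOpen (N : Set (AbsGal K)))
    (hκN : ∀ s ∈ N, κ s ∈ N)
    (hρ : Gn.ConjDual 2 N (inT K T) (Parity.cyclo E) κ ρ b) (hb : b.det ≠ 0)
    (L : Submodule E (stabD (P 2) → Fin n → E)) :
    Parity.selmerBK (Parity.inertiaOffTwo K) (Parity.cyclo E) κ ρ b (stabD (P 2)) L =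
      Parity.selmerF (inT K T) (Parity.cyclo E) κ ρ b (fun w : Option T => stabD (HP.PP P w))
        (bkL T P ρ L) := by
  have hκc : Continuous κ := PA.kappa_continuous hc.sq hκ
  have hκκ : ∀ g, κ (κ g) = g := by
    intro g
    ext x
    rw [hκ, hκ, hc.sq, hc.sq]
  have hperp : ∀ l ∈ T, ∀ y : stabD (P l) → Fin n → E,
      Parity.IsPerp (fun d : stabD (P l) => Parity.cyclo E (d : AbsGal K)) (fun d => ρ (κ d)) b
        (fLoc (P l) (fun σ => ρ σ) : Set (stabD (P l) → Fin n → E)) y ↔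
      y ∈ fLoc (P l) (fun σ => ρ (κ σ)) := by
    intro l hl y
    have hNn : (N.subgroupOf (stabD (P l))).Normal := inferInstance
    have hNo' : IsOpen (N.subgroupOf (stabD (P l)) : Set (stabD (P l))) :=
      hNo.preimage continuous_subtype_val
    exact perp_fLoc (hTX l hl) hNn hNo' (proRep_rho hρ _)
      (proRep_kap hκc hκN hρ _) hb (fun d => hρ.dual d)
  ext x
  constructor
  · rintro ⟨h1, h2, h3, h4⟩
    refine ⟨h1, ?_, ?_⟩
    · rintro σ ⟨Q, hQ, hQ2, hQT, hσ⟩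
      obtain ⟨v, hv⟩ := h2 _ ⟨Q, hQ, hQ2, rfl⟩
      have h5 : x σ = ρ σ *ᵥ v - v := hv σ hσ
      rw [h5, hρ.unram σ ⟨Q, hQ, hQ2, hQT, hσ⟩, one_mulVec, sub_self]
    · rintro (_ | l)
      · exact ⟨h3, h4⟩
      · show Cnd' κ ρ b x (stabD (P l)) (fLoc (P l) (fun σ => ρ σ))
        have hQ := hP.isPrime l (Or.inl l.2)
        have hQ2 := two_notMem hP l.2
        refine ⟨⟨⟨h1.1.comp continuous_subtype_val, fun s t => h1.2 s t⟩, ?_⟩, ?_⟩
        · obtain ⟨v, hv⟩ := h2 _ ⟨P l, hQ, hQ2, rfl⟩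
          exact ⟨v, fun d hd => hv d hd⟩
        · refine (hperp l l.2 _).2 ⟨⟨h1.1.comp (hκc.comp continuous_subtype_val),
            fun s t => ?_⟩, ?_⟩
          · show x (κ (s * t : stabD (P l))) = _
            rw [Subgroup.coe_mul, map_mul, h1.2]
          · obtain ⟨Q', hQ', hQ2', hQQ⟩ := kap_inertia hc.sq hκ (P l) hQ hQ2
            obtain ⟨v, hv⟩ := h2 _ ⟨Q', hQ', hQ2', rfl⟩
            exact ⟨v, fun d hd => hv (κ d) (hQQ d hd)⟩
  · rintro ⟨h1, h2, h3⟩
    refine ⟨h1, ?_, (h3 none).1, (h3 none).2⟩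
    rintro _ ⟨Q, hQ, hQ2, rfl⟩
    by_cases h4 : ∀ l ∈ T, (l : 𝓞 (AlgebraicClosure K)) ∉ Q
    · refine ⟨0, fun σ hσ => ?_⟩
      rw [mulVec_zero, sub_zero]
      exact h2 σ ⟨Q, hQ, hQ2, h4, hσ⟩
    · push Not at h4
      obtain ⟨l, hl, hlQ⟩ := h4
      obtain ⟨g, hg⟩ := above_k hK (hP.prime l hl) hc hκ (hP.isPrime l (Or.inl hl))
        (hP.mem l (Or.inl hl)) hQ hlQ
      have h5 : Cnd' κ ρ b x (stabD (P l)) (fLoc (P l) (fun σ => ρ σ)) := h3 (some ⟨l, hl⟩)
      obtain ⟨⟨-, v, hv⟩, h6⟩ := h5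
      obtain ⟨-, v', hv'⟩ := (hperp l hl _).1 h6
      -- the restriction to the conjugate group
      obtain ⟨v₀, hv₀⟩ : ∃ v₀, ∀ σ ∈ Q.inertia (AbsGal K),
          x (g⁻¹ * σ * g) = ρ (g⁻¹ * σ * g) *ᵥ v₀ - v₀ := by
        rcases hg with ⟨-, hg⟩ | ⟨-, hg⟩
        · refine ⟨v, fun σ hσ => ?_⟩
          have h7 := (hg σ).1 hσ
          exact hv ⟨_, HP.inertia_le_stabD _ h7⟩ h7
        · refine ⟨v', fun σ hσ => ?_⟩
          have h7 := (hg σ).1 hσ
          have h8 := hv' ⟨_, HP.inertia_le_stabD _ h7⟩ h7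
          simp only [hκκ] at h8
          exact h8
      refine ⟨ρ g *ᵥ v₀ - x g, fun σ hσ => ?_⟩
      have hx1 : x 1 = 0 := by
        have h := h1.2 1 1
        rw [mul_one, map_one, one_mulVec] at h
        exact left_eq_add.1 h
      have hxi : ρ g *ᵥ x g⁻¹ = -x g := by
        have h8 := h1.2 g g⁻¹
        rw [mul_inv_cancel, hx1] at h8
        rw [eq_neg_iff_add_eq_zero, add_comm]
        exact h8.symm
      have h7 : σ = g * (g⁻¹ * σ * g) * g⁻¹ := by group
      have h8 : ρ σ = ρ g * ρ (g⁻¹ * σ * g) * ρ g⁻¹ := by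
        rw [← map_mul, ← map_mul, ← h7]
      have hgi : ρ g⁻¹ * ρ g = 1 := by rw [← map_mul, inv_mul_cancel, map_one]
      have hgi' : ρ g * ρ g⁻¹ = 1 := by rw [← map_mul, mul_inv_cancel, map_one]
      have h9 : x σ = x g + ρ g *ᵥ x (g⁻¹ * σ * g) +
          (ρ g * ρ (g⁻¹ * σ * g)) *ᵥ x g⁻¹ := by
        conv_lhs => rw [h7]
        rw [h1.2, h1.2, map_mul]
      have h10 : x g⁻¹ = -(ρ g⁻¹ *ᵥ x g) := by
        have : ρ g⁻¹ *ᵥ (ρ g *ᵥ x g⁻¹) = x g⁻¹ := by rw [mulVec_mulVec, hgi, one_mulVec]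
        rw [← this, hxi, mulVec_neg]
      rw [h9, hv₀ σ hσ, h10, h8, mulVec_sub, mulVec_sub, mulVec_neg]
      simp only [mulVec_mulVec, Matrix.mul_assoc, hgi, mul_one]
      abel

/-- from the parity formula with all local conditions at `T` to the parity formula with the condition of
Bloch and Kato -/
theorem bk_gen (hK : IsQ K D s) (hc : PA.IsConj s c)
    (hκ : ∀ (σ : AbsGal K) (x : AlgebraicClosure K), κ σ x = c (σ (c x)))
    (hP : IsP T P) (hTX : ∀ l ∈ T, TX (P l) l) (hN : N.Normal) (hNo : IsOpen (N : Set (AbsGal K)))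
    (hκN : ∀ s ∈ N, κ s ∈ N)
    (hρ : Gn.ConjDual 2 N (inT K T) (Parity.cyclo E) κ ρ b) (hb : b.det ≠ 0)
    (hpar : Parity.ParityFormula (inT K T) (Parity.cyclo E) κ ρ b
      (fun w : Option T => stabD (HP.PP P w))) :
    Parity.ParityBK (Parity.inertiaOffTwo K) (Parity.cyclo E) κ ρ b (stabD (P 2)) False := by
  intro L hL
  have hev : ∀ l : T, Even (Parity.dimModulo (fLoc (P l) (fun σ => ρ σ))
      (Parity.coboundaries (fun σ : stabD (P l) => ρ σ)) +
      Module.finrank E (Parity.fixedBy (fun σ : stabD (P l) => ρ σ))) ∧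
      Parity.coboundaries (fun σ : stabD (P l) => ρ σ) ≤ fLoc (P l) (fun σ => ρ σ) := fun l =>
    even_fLoc (hTX l l.2) (map_one ρ) (fun s t => map_mul ρ _ _)
      (hρ.cont.comp continuous_subtype_val)
  have hL' : ∀ w : Option T, Parity.Between
      (Parity.coboundaries (fun σ : stabD (HP.PP P w) => ρ σ)) (bkL T P ρ L w)
      (Parity.cocycles (fun σ : stabD (HP.PP P w) => ρ σ)) := by
    rintro (_ | l)
    · exact hL
    · exact ⟨(hev l).2, fun x hx => hx.1⟩
  obtain ⟨h1, h2, h3, h4⟩ := hpar (bkL T P ρ L) hL'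
  rw [← selBK_eq hK hc hκ hP hTX hN hNo hκN hρ hb L] at h2 h3 h4
  refine ⟨h1 none, h2, h3, ?_, fun h => h.elim⟩
  rw [Fintype.sum_option] at h4
  obtain ⟨m, hm⟩ : Even (∑ l : T, (Parity.dimModulo (bkL T P ρ L (some l))
      (Parity.coboundaries (fun σ : stabD (HP.PP P (some l)) => ρ σ)) +
      Module.finrank E (Parity.fixedBy (fun σ : stabD (HP.PP P (some l)) => ρ σ)))) :=
    Finset.even_sum _ fun l _ => (hev l).1
  rw [hm] at h4
  have h6 : Even (Parity.dimModulo (Parity.selmerBK (Parity.inertiaOffTwo K) (Parity.cyclo E) κ ρ b (stabD (P 2)) L)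
      (Parity.coboundaries ρ) + Module.finrank E (Parity.fixedBy (fun σ : AbsGal K => ρ σ)) +
      (Parity.dimModulo L (Parity.coboundaries (fun σ : stabD (P 2) => ρ σ)) +
        Module.finrank E (Parity.fixedBy (fun σ : stabD (P 2) => ρ σ)) + (m + m))) := h4
  rw [Nat.ModEq]
  rw [Nat.even_iff] at h6
  omega

end main

end Pool.Agent.Work.MP_787500_nt.LB
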